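import Pool.Agent.Y945.CB.Inv2

set_option linter.unusedSectionVars false
set_option linter.unusedSimpArgs false

namespace Pool.Agent.Y945.CB

variable {F : Type} [Field F]

/-- the seed `s` is the homogenization of `h` -/
structure Rel (c : Fin 2 → F) (s : Seed 3 2 F) (h : HS F) : Prop where
  x : ∀ i, s.x (Sum.inl i) = h.X i * (c 0 ^ h.w 0 i * c 1 ^ h.w 1 i)
  c : ∀ a, s.x (Sum.inr a) = c a
  B : ∀ i j, s.B (Sum.inl i) j = h.B i j
  b : ∀ a k, s.B (Sum.inr a) k = -∑ i, h.w a i * h.B i k

variable {c : Fin 2 → F} {s : Seed 3 2 F} {h : HS F}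

theorem posneg (z : ℤ) : z = max z 0 - max (-z) 0 := by omega

theorem Rel.sumB (k : Fin 3) (a : Fin 2) : ∑ i, h.w a i * h.B i k =
    ∑ i, h.w a i * max (h.B i k) 0 - ∑ i, h.w a i * max (-h.B i k) 0 := by
  rw [← Finset.sum_sub_distrib]
  refine Finset.sum_congr rfl fun i _ => ?_
  rw [← mul_sub, ← posneg]

theorem Rel.prod (hc : ∀ a, c a ≠ 0) (R : Rel c s h) (m : Fin 3 → ℕ) (n : Fin 2 → ℕ) :
    (∏ i, s.x (Sum.inl i) ^ m i) * ∏ a, s.x (Sum.inr a) ^ n a =
    (∏ i, h.X i ^ m i) * (c 0 ^ ((∑ i, h.w 0 i * (m i : ℤ)) + (n 0 : ℤ)) *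
      c 1 ^ ((∑ i, h.w 1 i * (m i : ℤ)) + (n 1 : ℤ))) := by
  have h0 := hc 0
  have h1 := hc 1
  simp only [R.x, R.c, Fin.prod_univ_three, Fin.prod_univ_two, Fin.sum_univ_three,
    zpow_add₀ h0, zpow_add₀ h1, zpow_mul, zpow_natCast, mul_pow]
  ring

theorem Rel.mut (hc : ∀ a, c a ≠ 0) (R : Rel c s h) (hd : ∀ l, h.B l l = 0) (k : Fin 3) :
    Rel c (s.mutate k) (h.mut k) where
  x := by
    intro i
    by_cases hi : i = k
    · subst hi
      have e1 : ∀ a : Fin 2, (∑ j, h.w a j * ((h.B j i).toNat : ℤ)) + ((s.B (Sum.inr a) i).toNat : ℤ)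
          = max (∑ j, h.w a j * max (h.B j i) 0) (∑ j, h.w a j * max (-h.B j i) 0) := by
        intro a
        simp only [Int.ofNat_toNat, R.b, Rel.sumB]
        omega
      have e2 : ∀ a : Fin 2, (∑ j, h.w a j * ((-h.B j i).toNat : ℤ)) + ((-s.B (Sum.inr a) i).toNat : ℤ)
          = max (∑ j, h.w a j * max (h.B j i) 0) (∑ j, h.w a j * max (-h.B j i) 0) := by
        intro a
        simp only [Int.ofNat_toNat, R.b, Rel.sumB]
        omega
      simp only [Seed.mutate, HS.mut, Function.update_self, Fintype.prod_sum_type, R.B]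
      rw [R.prod hc, R.prod hc, e1, e1, e2, e2, ← add_mul, R.x, mul_div_mul_comm,
        zpow_sub₀ (hc 0), zpow_sub₀ (hc 1), mul_div_mul_comm]
    · have : (Sum.inl i : Fin 3 ⊕ Fin 2) ≠ Sum.inl k := by simpa using hi
      simp only [Seed.mutate, HS.mut, Function.update_of_ne hi, Function.update_of_ne this, R.x]
  c := by
    intro a
    simp only [Seed.mutate, Function.update_of_ne (show (Sum.inr a : Fin 3 ⊕ Fin 2) ≠ Sum.inl k from
      by simp), R.c]
  B := by
    intro i j
    simp only [Seed.mutate, HS.mut, R.B]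
    by_cases h1 : i = k ∨ j = k
    · simp [h1]
    · simp [h1]
  b := by
    intro a j
    by_cases hj : j = k
    · subst hj
      have : (s.mutate j).B (Sum.inr a) j = -s.B (Sum.inr a) j := by simp [Seed.mutate]
      rw [this, R.b]
      congr 1
      rw [← Finset.sum_neg_distrib]
      refine Finset.sum_congr rfl fun i _ => ?_
      by_cases hi : i = j
      · subst hi; simp [HS.mut, hd]
      · simp [HS.mut, Function.update_of_ne hi]
    · have e : (s.mutate k).B (Sum.inr a) j = s.B (Sum.inr a) j +
          (max (s.B (Sum.inr a) k) 0 * max (h.B k j) 0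
            - max (-s.B (Sum.inr a) k) 0 * max (-h.B k j) 0) := by simp [Seed.mutate, hj, R.B]
      rw [e]
      have e3 : ∀ i, (h.mut k).w a i * (h.mut k).B i j =
          (if i = k then (max (∑ i, h.w a i * max (h.B i k) 0) (∑ i, h.w a i * max (-h.B i k) 0)
            - h.w a k) * (-h.B k j) - h.w a k * h.B k j else 0) + (h.w a i * h.B i j +
            ((h.w a i * max (h.B i k) 0) * max (h.B k j) 0
            - (h.w a i * max (-h.B i k) 0) * max (-h.B k j) 0)) := by
        intro i
        by_cases hi : i = k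
        · subst hi
          simp only [HS.mut, Function.update_self, hd, true_or, if_true]
          simp
        · simp only [HS.mut, Function.update_of_ne hi, hi, hj, or_self, if_false]
          ring
      rw [Finset.sum_congr rfl fun i _ => e3 i]
      simp only [Finset.sum_add_distrib, Finset.sum_ite_eq', Finset.mem_univ, if_true,
        Finset.sum_sub_distrib, ← Finset.sum_mul, R.b]
      rw [Rel.sumB (h := h) k a]
      generalize ∑ i, h.w a i * max (h.B i k) 0 = p
      generalize ∑ i, h.w a i * max (-h.B i k) 0 = m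
      generalize ∑ i, h.w a i * h.B i j = q
      rw [show max (-(p - m)) 0 = max p m - p by omega,
        show max (-(-(p - m))) 0 = max p m - m by omega]
      have := posneg (h.B k j)
      generalize max (h.B k j) 0 = x at *
      generalize max (-h.B k j) 0 = y at *
      rw [this]
      ring

/-- an auxiliary grading -/
def Gr (f : F →+* F) (l : F) (h : HS F) : Prop :=
  ∃ v : Fin 3 → ℤ, (∀ k, ∑ i, v i * h.B i k = 0) ∧ ∀ i, f (h.X i) = l ^ v i * h.X i

theorem Gr.mut {f : F →+* F} {l : F} (hl : l ≠ 0) (G : Gr f l h) (hd : ∀ l, h.B l l = 0)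
    (k : Fin 3) : Gr f l (h.mut k) := by
  obtain ⟨v, hv, hX⟩ := G
  have hs : ∑ i, v i * max (h.B i k) 0 = ∑ i, v i * max (-h.B i k) 0 := by
    have := hv k
    rw [Finset.sum_congr rfl (fun i _ => by rw [posneg (h.B i k), mul_sub]),
      Finset.sum_sub_distrib] at this
    omega
  refine ⟨Function.update v k (∑ i, v i * max (h.B i k) 0 - v k), ?_, ?_⟩
  · intro j
    by_cases hj : j = k
    · subst hj
      have : ∀ i, Function.update v j (∑ i, v i * max (h.B i j) 0 - v j) i * (h.mut j).B i j
          = -(v i * h.B i j) := by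
        intro i
        by_cases hi : i = j
        · subst hi; simp [HS.mut, hd]
        · simp [HS.mut, Function.update_of_ne hi]
      rw [Finset.sum_congr rfl fun i _ => this i, Finset.sum_neg_distrib, hv, neg_zero]
    · have e3 : ∀ i, Function.update v k (∑ i, v i * max (h.B i k) 0 - v k) i * (h.mut k).B i j =
          (if i = k then ((∑ i, v i * max (h.B i k) 0)
            - v k) * (-h.B k j) - v k * h.B k j else 0) + (v i * h.B i j +
            ((v i * max (h.B i k) 0) * max (h.B k j) 0
            - (v i * max (-h.B i k) 0) * max (-h.B k j) 0)) := by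
        intro i
        by_cases hi : i = k
        · subst hi
          simp only [HS.mut, Function.update_self, hd, true_or, if_true]
          simp
        · simp only [HS.mut, Function.update_of_ne hi, hi, hj, or_self, if_false]
          ring
      rw [Finset.sum_congr rfl fun i _ => e3 i]
      simp only [Finset.sum_add_distrib, Finset.sum_ite_eq', Finset.mem_univ, if_true,
        Finset.sum_sub_distrib, ← Finset.sum_mul, hv, ← hs]
      generalize ∑ i, v i * max (h.B i k) 0 = p
      have := posneg (h.B k j)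
      generalize max (h.B k j) 0 = x at *
      generalize max (-h.B k j) 0 = y at *
      rw [this]
      ring
  · intro i
    by_cases hi : i = k
    · subst hi
      simp only [HS.mut, Function.update_self, map_div₀, map_add, map_prod, map_pow, hX]
      have e : ∀ m : Fin 3 → ℕ, ∏ j, (l ^ v j * h.X j) ^ m j
          = l ^ (∑ j, v j * (m j : ℤ)) * ∏ j, h.X j ^ m j := by
        intro m
        simp only [Fin.prod_univ_three, Fin.sum_univ_three, zpow_add₀ hl, zpow_mul, zpow_natCast,
          mul_pow]
        ring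
      rw [e, e]
      simp only [Int.ofNat_toNat]
      rw [← hs, ← mul_add, mul_div_mul_comm, zpow_sub₀ hl]
    · simp only [HS.mut, Function.update_of_ne hi, hX]

end Pool.Agent.Y945.CB
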