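import Pool.Agent.Y945.CB.Bridge

set_option linter.unusedSectionVars false
set_option linter.unusedSimpArgs false

namespace Pool.Agent.Y945.CB

theorem Inv.diag {F : Type} [Field F] {pos : F → Prop} {C : Set (F × (Fin 2 → ℤ))}
    {D₀ : Pent F} {h : HS F} (hB : Base pos C D₀) (H : Inv pos C D₀ h) (l : Fin 3) :
    h.B l l = 0 := by
  obtain ⟨hx, H | H | ⟨D, hc, H⟩ | ⟨k, H⟩⟩ := H
  · exact H.diag l
  · obtain ⟨h0, i, j, k, h0x, H', rfl⟩ := H
    exact (Sh5.mk hB.ok H').diag l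
  · exact H.diag l
  · exact H.wild.diag l

section general

variable {F : Type} [Field F] (a b t x y : F)

/-- the nine core cluster variables -/
noncomputable def E : Fin 9 → F := ![a, b, t,
  (x * y ^ 3 * a + t ^ 3 + x ^ 3 * y * b) / (a * b),
  (t ^ 3 + a * x * y ^ 3) / b,
  (b * x ^ 3 * y + t ^ 3) / a,
  (((t ^ 3 + a * x * y ^ 3) / b) ^ 2 + x ^ 6 * y ^ 2) / t,
  (((b * x ^ 3 * y + t ^ 3) / a) ^ 2 + x ^ 2 * y ^ 6) / t,
  (y ^ 4 * a ^ 2 + x ^ 4 * b ^ 2) / t]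

def e0 : Fin 9 → ℤ := ![2, 0, 1, 1, 3, 1, 5, 1, 3]
def e1 : Fin 9 → ℤ := ![0, 2, 1, 1, 1, 3, 1, 5, 3]
def e2 : Fin 9 → ℤ := ![3, 3, 1, -3, 0, 0, -1, -1, 5]

/-- the set of core pairs -/
def CC : Set (F × (Fin 2 → ℤ)) :=
  {q | ∃ i, q.1 * (x ^ q.2 0 * y ^ q.2 1) = E a b t x y i ∧ q.2 0 = e0 i ∧ q.2 1 = e1 i}

/-- the initial pentagon -/
noncomputable def P0 : Pent F where
  u := (x * y ^ 3 * a + t ^ 3 + x ^ 3 * y * b) / (a * b) / (x * y)
  v := a / x ^ 2
  S := ((t ^ 3 + a * x * y ^ 3) / b) / (x ^ 3 * y)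
  y := b / y ^ 2
  T := ((b * x ^ 3 * y + t ^ 3) / a) / (x * y ^ 3)
  z := t / (x * y)
  wu := fun _ => 1
  wv := ![2, 0]
  wy := ![0, 2]
  wz := fun _ => 1
  e := 1

/-- the initial coefficient-free seed -/
noncomputable def H0 : HS F where
  X := ![a / x ^ 2, b / y ^ 2, t / (x * y)]
  B := ![![0, -1, 2], ![1, 0, -2], ![-3, 3, 0]]
  w := ![![2, 0, 1], ![0, 2, 1]]

variable {a b t x y}

theorem base0 {pos : F → Prop} (hp : PosCone pos) (ha : pos a) (hb : pos b) (ht : pos t)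
    (hx : pos x) (hy : pos y) : Base pos (CC a b t x y) (P0 a b t x y) := by
  have ha' := hp.ne ha
  have hb' := hp.ne hb
  have ht' := hp.ne ht
  have hx' := hp.ne hx
  have hy' := hp.ne hy
  have pd : pos (x * y ^ 3 * a + t ^ 3 + x ^ 3 * y * b) :=
    hp.add (hp.add (hp.mul (hp.mul hx (hp.pow hy 3)) ha) (hp.pow ht 3))
      (hp.mul (hp.mul (hp.pow hx 3) hy) hb)
  have pp : pos (t ^ 3 + a * x * y ^ 3) := hp.add (hp.pow ht 3) (hp.mul (hp.mul ha hx) (hp.pow hy 3))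
  have pq : pos (b * x ^ 3 * y + t ^ 3) := hp.add (hp.mul (hp.mul hb (hp.pow hx 3)) hy) (hp.pow ht 3)
  have pu : pos (P0 a b t x y).u := hp.div (hp.div pd (hp.mul ha hb)) (hp.mul hx hy)
  have pv : pos (P0 a b t x y).v := hp.div ha (hp.pow hx 2)
  have pS : pos (P0 a b t x y).S := hp.div (hp.div pp hb) (hp.mul (hp.pow hx 3) hy)
  have py : pos (P0 a b t x y).y := hp.div hb (hp.pow hy 2)
  have pT : pos (P0 a b t x y).T := hp.div (hp.div pq ha) (hp.mul hx (hp.pow hy 3))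
  have pz : pos (P0 a b t x y).z := hp.div ht (hp.mul hx hy)
  refine
  { ok :=
    { uv := ?_
      uy := ?_
      Sy := ?_
      Tv := ?_
      ST := ?_
      nu := hp.ne pu
      nv := hp.ne pv
      nS := hp.ne pS
      ny := hp.ne py
      nT := hp.ne pT
      nz := hp.ne pz
      e1 := Or.inl rfl
      wu0 := fun _ => by simp [P0]
      wv0 := by intro i; fin_cases i <;> simp [P0]
      wy0 := by intro i; fin_cases i <;> simp [P0]
      w3 := by intro i; fin_cases i <;> simp [P0] }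
    pu := pu
    pv := pv
    pS := pS
    py := py
    pT := pT
    pz := pz
    wu := fun _ => rfl
    wz := fun _ => rfl
    wvy := by intro i; fin_cases i <;> simp [P0]
    sv := by simp [P0]
    sy := by simp [P0]
    ou := Or.inl ⟨3, ?_, ?_, ?_⟩
    ov := Or.inl ⟨0, ?_, ?_, ?_⟩
    oS := Or.inl ⟨4, ?_, ?_, ?_⟩
    oy := Or.inl ⟨1, ?_, ?_, ?_⟩
    oT := Or.inl ⟨5, ?_, ?_, ?_⟩
    oz := Or.inl ⟨2, ?_, ?_, ?_⟩
    on := Or.inl ⟨7, ?_, ?_, ?_⟩
    on' := Or.inl ⟨6, ?_, ?_, ?_⟩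
    oR := Or.inl ⟨8, ?_, ?_, ?_⟩ }
  · simp only [P0]; field_simp; ring
  · simp only [P0]; field_simp; ring
  · simp only [P0]; field_simp; ring
  · simp only [P0]; field_simp
  · simp only [P0]; field_simp; ring
  all_goals try (simp [P0, Pent.wS, Pent.wT, Pent.next, Pent.flip, e0, e1]; done)
  · simp [P0, E]; field_simp
  · simp [P0, E]; field_simp
  · simp [P0, E, Pent.wS]; field_simp
  · simp [P0, E]; field_simp
  · simp [P0, E, Pent.wT]; field_simp
  · simp [P0, E]; field_simp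
  · simp [P0, E, Pent.next]; field_simp; ring
  · simp [P0, E, Pent.next, Pent.flip]; field_simp; ring
  · simp [P0, E]; field_simp

theorem H0_shape : Sh5 (P0 a b t x y) (H0 a b t x y) 1 0 2 where
  ij := by decide
  ik := by decide
  jk := by decide
  X1 := rfl
  X2 := rfl
  X3 := rfl
  W1 := by intro i; fin_cases i <;> rfl
  W2 := by intro i; fin_cases i <;> rfl
  W3 := by intro i; fin_cases i <;> rfl
  B12 := rfl
  B21 := rfl
  B13 := rfl
  B31 := rfl
  B23 := rfl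
  B32 := rfl
  D1 := rfl
  D2 := rfl
  D3 := rfl

theorem H0_inv {pos : F → Prop} (hp : PosCone pos) (ha : pos a) (hb : pos b) (ht : pos t)
    (hx : pos x) (hy : pos y) : Inv pos (CC a b t x y) (P0 a b t x y) (H0 a b t x y) := by
  refine ⟨?_, Or.inl ⟨_, _, _, .inr (.inr (.inr (.inr H0_shape)))⟩⟩
  have hB := base0 hp ha hb ht hx hy
  intro l
  fin_cases l
  · exact hB.pv
  · exact hB.py
  · exact hB.pz

theorem H0_gr {f : F →+* F} {l m n : F} (hl : l ≠ 0) (hm : m ≠ 0) (hn : n ≠ 0)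
    (ha : f a = m ^ 2 * l ^ 3 * a) (hb : f b = n ^ 2 * l ^ 3 * b) (ht : f t = m * n * l * t)
    (hx : x ≠ 0) (hy : y ≠ 0) (hfx : f x = m * x) (hfy : f y = n * y) :
    Gr f l (H0 a b t x y) := by
  refine ⟨![3, 3, 1], ?_, ?_⟩
  · intro k; fin_cases k <;> simp [H0, Fin.sum_univ_three]
  · intro i; fin_cases i
    · simp [H0, ha, hfx]
      field_simp
    · simp [H0, hb, hfy]
      field_simp
    · simp [H0, ht, hfx, hfy]
      field_simp

/-- the core variables are homogeneous -/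
theorem E_gr {f : F →+* F} {l m n : F} (hl : l ≠ 0) (hm : m ≠ 0) (hn : n ≠ 0)
    (ha : f a = m ^ 2 * l ^ 3 * a) (hb : f b = n ^ 2 * l ^ 3 * b) (ht : f t = m * n * l * t)
    (hfx : f x = m * x) (hfy : f y = n * y)
    (a0 : a ≠ 0) (b0 : b ≠ 0) (t0 : t ≠ 0) (i : Fin 9) :
    f (E a b t x y i) = m ^ e0 i * n ^ e1 i * l ^ e2 i * E a b t x y i := by
  fin_cases i
  · simp [E, e0, e1, e2, ha]
  · simp [E, e0, e1, e2, hb]
  · simp [E, e0, e1, e2, ht]
  · simp [E, e0, e1, e2, ha, hb, ht, hfx, hfy]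
    field_simp
  · simp [E, e0, e1, e2, ha, hb, ht, hfx, hfy]
    field_simp
  · simp [E, e0, e1, e2, ha, hb, ht, hfx, hfy]
    field_simp
  · simp [E, e0, e1, e2, ha, hb, ht, hfx, hfy]
    field_simp
  · simp [E, e0, e1, e2, ha, hb, ht, hfx, hfy]
    field_simp
  · simp [E, e0, e1, e2, ha, hb, ht, hfx, hfy]
    field_simp

/-- the key identity -/
theorem key_identity (a0 : a ≠ 0) (b0 : b ≠ 0) (t0 : t ≠ 0) :
    x * y * (E a b t x y 3 * E a b t x y 8) =
      x ^ 2 * (a * E a b t x y 7 - t ^ 2 * E a b t x y 5) +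
      y ^ 2 * (b * E a b t x y 6 - t ^ 2 * E a b t x y 4) := by
  simp only [E, Matrix.cons_val]
  field_simp
  ring

end general

end Pool.Agent.Y945.CB
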