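import Mathlib

/-!
Cluster algebras of geometric type (coefficient variables not inverted), additive bases.
-/

namespace Pool.Agent.Y945.CB

/-- A labelled seed of geometric type in a field `F`, with `n` mutable and `r` coefficient
variables: the extended cluster `x` and the extended exchange matrix `B`. -/
structure Seed (n r : ℕ) (F : Type) where
  x : Fin n ⊕ Fin r → F
  B : Matrix (Fin n ⊕ Fin r) (Fin n) ℤ

/-- Fomin–Zelevinsky mutation in direction `k`. -/
noncomputable def Seed.mutate {n r : ℕ} {F : Type} [Field F] (s : Seed n r F) (k : Fin n) :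
    Seed n r F where
  x := Function.update s.x (Sum.inl k)
    ((∏ i, s.x i ^ (s.B i k).toNat + ∏ i, s.x i ^ (-s.B i k).toNat) / s.x (Sum.inl k))
  B := fun i j => if i = Sum.inl k ∨ j = k then -s.B i j
    else s.B i j + (max (s.B i k) 0 * max (s.B (Sum.inl k) j) 0
      - max (-s.B i k) 0 * max (-s.B (Sum.inl k) j) 0)

/-- Seeds obtained by iterated mutation. -/
inductive Reach {n r : ℕ} {F : Type} [Field F] (s₀ : Seed n r F) : Seed n r F → Prop
  | refl : Reach s₀ s₀
  | step (s : Seed n r F) (k : Fin n) : Reach s₀ s → Reach s₀ (s.mutate k)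

/-- The ambient field of rational functions over `ℂ` in `n + r` variables. -/
abbrev Amb (n r : ℕ) : Type := FractionRing (MvPolynomial (Fin n ⊕ Fin r) ℂ)

/-- The initial seed with extended exchange matrix `B`. -/
noncomputable def initialSeed {n r : ℕ} (B : Matrix (Fin n ⊕ Fin r) (Fin n) ℤ) :
    Seed n r (Amb n r) where
  x := fun i => algebraMap (MvPolynomial (Fin n ⊕ Fin r) ℂ) (Amb n r) (MvPolynomial.X i)
  B := B

/-- The top square block is skew-symmetrizable. -/
def SkewSymmetrizable {n r : ℕ} (B : Matrix (Fin n ⊕ Fin r) (Fin n) ℤ) : Prop :=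
  ∃ d : Fin n → ℕ, (∀ i, 0 < d i) ∧
    ∀ i j, (d i : ℤ) * B (Sum.inl i) j = -((d j : ℤ) * B (Sum.inl j) i)

/-- The `j`-th coefficient variable. -/
noncomputable def coeffVar {n r : ℕ} (j : Fin r) : Amb n r :=
  algebraMap (MvPolynomial (Fin n ⊕ Fin r) ℂ) (Amb n r) (MvPolynomial.X (Sum.inr j))

/-- The set of cluster variables. -/
def clusterVars {n r : ℕ} (B : Matrix (Fin n ⊕ Fin r) (Fin n) ℤ) : Set (Amb n r) :=
  {y | ∃ s, Reach (initialSeed B) s ∧ ∃ k : Fin n, y = s.x (Sum.inl k)}

/-- The cluster algebra: generated by all cluster and coefficient variables. -/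
noncomputable def clusterAlgebra {n r : ℕ} (B : Matrix (Fin n ⊕ Fin r) (Fin n) ℤ) :
    Subalgebra ℂ (Amb n r) :=
  Algebra.adjoin ℂ (clusterVars B ∪ Set.range coeffVar)

/-- `S` is an additive basis of the cluster algebra. -/
structure IsAdditiveBasis {n r : ℕ} (B : Matrix (Fin n ⊕ Fin r) (Fin n) ℤ)
    (S : Set (Amb n r)) : Prop where
  linearIndependent : LinearIndependent ℂ ((↑) : S → Amb n r)
  span_eq : Submodule.span ℂ S = Subalgebra.toSubmodule (clusterAlgebra B)

/-- Cluster monomials: monomials in the elements of one extended cluster. -/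
def clusterMonomials {n r : ℕ} (B : Matrix (Fin n ⊕ Fin r) (Fin n) ℤ) : Set (Amb n r) :=
  {y | ∃ s, Reach (initialSeed B) s ∧ ∃ e : Fin n ⊕ Fin r → ℕ, y = ∏ i, s.x i ^ e i}

/-- Two cluster variables are compatible if some cluster contains both. -/
def Compatible {n r : ℕ} (B : Matrix (Fin n ⊕ Fin r) (Fin n) ℤ) (x y : Amb n r) : Prop :=
  ∃ s, Reach (initialSeed B) s ∧ ∃ i j : Fin n, x = s.x (Sum.inl i) ∧ y = s.x (Sum.inl j)

/-- Property 3: stability under multiplication by coefficient variables. -/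
def CoeffStable {n r : ℕ} (S : Set (Amb n r)) : Prop :=
  ∀ (j : Fin r), ∀ b ∈ S, coeffVar j * b ∈ S

/-- An additive basis with the four properties of the problem. -/
structure IsClusterBasis {n r : ℕ} (B : Matrix (Fin n ⊕ Fin r) (Fin n) ℤ)
    (S : Set (Amb n r)) : Prop where
  basis : IsAdditiveBasis B S
  monomials : clusterMonomials B ⊆ S
  compatible : ∀ x ∈ clusterVars B, ∀ y ∈ clusterVars B, (Compatible B x y ↔ x * y ∈ S)
  coeff : CoeffStable S
  products : ∀ T : Finset (Amb n r), (T : Set (Amb n r)) ⊆ S →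
    (∀ b ∈ T, ∀ b' ∈ T, b ≠ b' → b * b' ∈ S) → ∏ b ∈ T, b ∈ S

end Pool.Agent.Y945.CB
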