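import Pool.Agent.Y945.CB.Core

set_option linter.unusedSectionVars false
set_option linter.unusedSimpArgs false

namespace Pool.Agent.Y945.CB

open MvPolynomial

abbrev Ix : Type := Fin 3 ⊕ Fin 2
abbrev Rg : Type := MvPolynomial Ix ℂ
abbrev K : Type := Amb 3 2

/-- the generators of the ambient field -/
noncomputable def xk (i : Ix) : K := algebraMap Rg K (X i)

/-- ratios of polynomials with positive real value at the point `1` -/
def PosK (x : K) : Prop := ∃ g k : Rg, ∃ r s : ℝ, 0 < r ∧ 0 < s ∧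
  eval (fun _ => (1 : ℂ)) g = (r : ℂ) ∧ eval (fun _ => (1 : ℂ)) k = (s : ℂ) ∧
  x = algebraMap Rg K g / algebraMap Rg K k

theorem posK_ne {g : Rg} {r : ℝ} (hr : 0 < r) (h : eval (fun _ => (1 : ℂ)) g = (r : ℂ)) :
    algebraMap Rg K g ≠ 0 := by
  intro h0
  have : g = 0 := by
    apply IsFractionRing.injective Rg K
    rw [h0, map_zero]
  rw [this, map_zero] at h
  have := Complex.ofReal_eq_zero.1 h.symm
  exact absurd this hr.ne'

theorem posCone : PosCone PosK where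
  one := ⟨1, 1, 1, 1, one_pos, one_pos, by simp, by simp, by simp⟩
  add := by
    rintro _ _ ⟨g, k, r, s, hr, hs, hg, hk, rfl⟩ ⟨g', k', r', s', hr', hs', hg', hk', rfl⟩
    refine ⟨g * k' + k * g', k * k', r * s' + s * r', s * s', by positivity, by positivity,
      by simp [hg, hk, hg', hk'], by simp [hk, hk'], ?_⟩
    rw [div_add_div _ _ (posK_ne hs hk) (posK_ne hs' hk')]
    simp
  mul := by
    rintro _ _ ⟨g, k, r, s, hr, hs, hg, hk, rfl⟩ ⟨g', k', r', s', hr', hs', hg', hk', rfl⟩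
    refine ⟨g * g', k * k', r * r', s * s', by positivity, by positivity,
      by simp [hg, hg'], by simp [hk, hk'], ?_⟩
    rw [div_mul_div_comm]
    simp
  inv := by
    rintro _ ⟨g, k, r, s, hr, hs, hg, hk, rfl⟩
    exact ⟨k, g, s, r, hs, hr, hk, hg, by rw [inv_div]⟩
  ne := by
    rintro _ ⟨g, k, r, s, hr, hs, hg, hk, rfl⟩
    exact div_ne_zero (posK_ne hr hg) (posK_ne hs hk)

theorem posK_x (i : Ix) : PosK (xk i) :=
  ⟨X i, 1, 1, 1, one_pos, one_pos, by simp, by simp, by simp [xk]⟩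

theorem xk_ne (i : Ix) : xk i ≠ 0 := posCone.ne (posK_x i)

/-- scaling of the variables -/
noncomputable def mu : Ix → ℂ := Sum.elim ![2 ^ 2 * 5 ^ 3, 3 ^ 2 * 5 ^ 3, 2 * 3 * 5] ![2, 3]

theorem mu_ne (i : Ix) : mu i ≠ 0 := by
  rcases i with i | i <;> fin_cases i <;> simp [mu]

noncomputable def sc (m : Ix → ℂ) : Rg →ₐ[ℂ] Rg := aeval (fun i => C (m i) * X i)

theorem sc_inj : Function.Injective (sc mu) := by
  have : (sc fun i => (mu i)⁻¹).comp (sc mu) = AlgHom.id ℂ Rg := by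
    apply MvPolynomial.algHom_ext
    intro i
    simp only [sc, AlgHom.comp_apply, aeval_X, map_mul, AlgHom.id_apply]
    rw [← MvPolynomial.algebraMap_eq, AlgHom.commutes, ← mul_assoc, MvPolynomial.algebraMap_eq,
      ← map_mul, mul_inv_cancel₀ (mu_ne i), map_one, one_mul]
  exact Function.LeftInverse.injective (g := sc fun i => (mu i)⁻¹) fun p => by
    rw [← AlgHom.comp_apply, this, AlgHom.id_apply]

theorem phi_inj : Function.Injective ((algebraMap Rg K).comp (sc mu : Rg →+* Rg)) := by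
  rw [RingHom.coe_comp]
  exact (IsFractionRing.injective Rg K).comp sc_inj

/-- the scaling automorphism -/
noncomputable def phi : K →+* K := IsFractionRing.lift phi_inj

theorem phi_alg (p : Rg) : phi (algebraMap Rg K p) = algebraMap Rg K (sc mu p) := by
  rw [phi, IsFractionRing.lift_algebraMap]
  rfl

theorem phi_const (z : ℂ) : phi (algebraMap ℂ K z) = algebraMap ℂ K z := by
  rw [IsScalarTower.algebraMap_apply ℂ Rg K, phi_alg, AlgHom.commutes]

theorem phi_x (i : Ix) : phi (xk i) = algebraMap ℂ K (mu i) * xk i := by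
  rw [xk, phi_alg, sc, aeval_X, map_mul, ← MvPolynomial.algebraMap_eq,
    ← IsScalarTower.algebraMap_apply ℂ Rg K]

/-- the scaling automorphism as a linear map -/
noncomputable def Phi : K →ₗ[ℂ] K where
  toFun := phi
  map_add' := map_add phi
  map_smul' := by
    intro z v
    rw [Algebra.smul_def, map_mul, phi_const, RingHom.id_apply, Algebra.smul_def]

theorem Phi_apply (v : K) : Phi v = phi v := rfl

/-- the exchange matrix -/
def Bm : Matrix (Fin 3 ⊕ Fin 2) (Fin 3) ℤ :=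
  Matrix.of (Sum.elim ![![0, -1, 2], ![1, 0, -2], ![-3, 3, 0]] ![![3, -1, -4], ![1, -3, 4]])

theorem Bm_skew : SkewSymmetrizable Bm := by
  refine ⟨![3, 3, 2], ?_, ?_⟩
  · intro i; fin_cases i <;> simp
  · intro i j; fin_cases i <;> fin_cases j <;> simp [Bm]

/-- the core cluster variables -/
noncomputable def EK : Fin 9 → K :=
  E (xk (Sum.inl 0)) (xk (Sum.inl 1)) (xk (Sum.inl 2)) (xk (Sum.inr 0)) (xk (Sum.inr 1))

noncomputable def ck : Fin 2 → K := fun a => xk (Sum.inr a)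

noncomputable def PK : Pent K :=
  P0 (xk (Sum.inl 0)) (xk (Sum.inl 1)) (xk (Sum.inl 2)) (xk (Sum.inr 0)) (xk (Sum.inr 1))
noncomputable def HK : HS K :=
  H0 (xk (Sum.inl 0)) (xk (Sum.inl 1)) (xk (Sum.inl 2)) (xk (Sum.inr 0)) (xk (Sum.inr 1))
noncomputable def CK : Set (K × (Fin 2 → ℤ)) :=
  CC (xk (Sum.inl 0)) (xk (Sum.inl 1)) (xk (Sum.inl 2)) (xk (Sum.inr 0)) (xk (Sum.inr 1))

theorem base_K : Base PosK CK PK :=
  base0 posCone (posK_x _) (posK_x _) (posK_x _) (posK_x _) (posK_x _)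

theorem inv_K : Inv PosK CK PK HK :=
  H0_inv posCone (posK_x _) (posK_x _) (posK_x _) (posK_x _) (posK_x _)

theorem rel_K : Rel ck (initialSeed Bm) HK where
  x := by
    intro i
    have h0 := xk_ne (Sum.inr 0)
    have h1 := xk_ne (Sum.inr 1)
    fin_cases i
    · simp [initialSeed, HK, H0, ck]
      field_simp
      rfl
    · simp [initialSeed, HK, H0, ck]
      field_simp
      rfl
    · simp [initialSeed, HK, H0, ck]
      field_simp
      rfl
  c := fun a => rfl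
  B := by intro i j; fin_cases i <;> fin_cases j <;> rfl
  b := by
    intro a k
    fin_cases a <;> fin_cases k <;> simp [initialSeed, Bm, HK, H0, Fin.sum_univ_three]

theorem mu_simp : algebraMap ℂ K (mu (Sum.inl 0)) = 2 ^ 2 * 5 ^ 3 ∧
    algebraMap ℂ K (mu (Sum.inl 1)) = 3 ^ 2 * 5 ^ 3 ∧
    algebraMap ℂ K (mu (Sum.inl 2)) = 2 * 3 * 5 ∧
    algebraMap ℂ K (mu (Sum.inr 0)) = 2 ∧
    algebraMap ℂ K (mu (Sum.inr 1)) = 3 := by
  have m2 : algebraMap ℂ K 2 = 2 := by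
    have := map_natCast (algebraMap ℂ K) 2
    exact_mod_cast this
  have m3 : algebraMap ℂ K 3 = 3 := by
    have := map_natCast (algebraMap ℂ K) 3
    exact_mod_cast this
  have m5 : algebraMap ℂ K 5 = 5 := by
    have := map_natCast (algebraMap ℂ K) 5
    exact_mod_cast this
  refine ⟨?_, ?_, ?_, ?_, ?_⟩ <;> simp [mu, m2, m3, m5]

theorem two_ne : (2 : K) ≠ 0 := two_ne_zero
theorem three_ne : (3 : K) ≠ 0 := three_ne_zero
theorem five_ne : (5 : K) ≠ 0 := by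
  have : ((5 : ℕ) : K) ≠ 0 := Nat.cast_ne_zero.2 (by norm_num)
  exact_mod_cast this

theorem phi_a : phi (xk (Sum.inl 0)) = 2 ^ 2 * 5 ^ 3 * xk (Sum.inl 0) := by
  rw [phi_x, mu_simp.1]
theorem phi_b : phi (xk (Sum.inl 1)) = 3 ^ 2 * 5 ^ 3 * xk (Sum.inl 1) := by
  rw [phi_x, mu_simp.2.1]
theorem phi_t : phi (xk (Sum.inl 2)) = 2 * 3 * 5 * xk (Sum.inl 2) := by
  rw [phi_x, mu_simp.2.2.1]
theorem phi_c0 : phi (xk (Sum.inr 0)) = 2 * xk (Sum.inr 0) := by
  rw [phi_x, mu_simp.2.2.2.1]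
theorem phi_c1 : phi (xk (Sum.inr 1)) = 3 * xk (Sum.inr 1) := by
  rw [phi_x, mu_simp.2.2.2.2]

theorem gr_K : Gr phi 5 HK :=
  H0_gr five_ne two_ne three_ne phi_a phi_b phi_t (xk_ne _) (xk_ne _) phi_c0 phi_c1

theorem EK_gr (i : Fin 9) : phi (EK i) = 2 ^ e0 i * 3 ^ e1 i * 5 ^ e2 i * EK i :=
  E_gr five_ne two_ne three_ne phi_a phi_b phi_t phi_c0 phi_c1 (xk_ne _) (xk_ne _) (xk_ne _) i

theorem ck_ne (a : Fin 2) : ck a ≠ 0 := xk_ne _

theorem reach_inv {s : Seed 3 2 K} (hs : Reach (initialSeed Bm) s) :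
    ∃ h, Rel ck s h ∧ Inv PosK CK PK h ∧ Gr phi 5 h := by
  induction hs with
  | refl => exact ⟨HK, rel_K, inv_K, gr_K⟩
  | step s k _ ih =>
    obtain ⟨h, R, I, G⟩ := ih
    exact ⟨h.mut k, R.mut ck_ne (I.diag base_K) k, I.mut posCone base_K k,
      G.mut five_ne (I.diag base_K) k⟩

/-- classification of the cluster variables -/
theorem classify {y : K} (hy : y ∈ clusterVars Bm) : (∃ i, y = EK i) ∨
    (y ≠ 0 ∧ ∃ w0 w1 v : ℤ, 0 ≤ w0 ∧ 0 ≤ w1 ∧ 9 ≤ w0 + w1 ∧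
      phi y = 2 ^ w0 * 3 ^ w1 * 5 ^ v * y) := by
  obtain ⟨s, hs, k, rfl⟩ := hy
  obtain ⟨h, R, I, v, hv, hX⟩ := reach_inv hs
  have hk : s.x (Sum.inl k) = h.X k * (ck 0 ^ h.w 0 k * ck 1 ^ h.w 1 k) := R.x k
  rcases I.okv posCone base_K k with ho | ho
  · left
    obtain ⟨i, hi, -, -⟩ := ho
    exact ⟨i, hk.trans hi⟩
  · right
    obtain ⟨h0, h1, h2⟩ := ho
    refine ⟨?_, h.w 0 k, h.w 1 k, v k, h0, h1, h2, ?_⟩
    · rw [hk]
      exact mul_ne_zero (posCone.ne (I.1 k)) (mul_ne_zero (zpow_ne_zero _ (ck_ne 0))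
        (zpow_ne_zero _ (ck_ne 1)))
    · rw [hk, map_mul, map_mul, map_zpow₀, map_zpow₀, hX k, ck, ck, phi_c0, phi_c1, mul_zpow,
        mul_zpow]
      ring

/-- core variables are cluster variables -/
theorem mem_of_at {s : Seed 3 2 K} {h : HS K} (hs : Reach (initialSeed Bm) s) (R : Rel ck s h)
    {i : Fin 3} {X : K} {w0 w1 : ℤ} (hX : h.X i = X) (h0 : h.w 0 i = w0) (h1 : h.w 1 i = w1) :
    X * (xk (Sum.inr 0) ^ w0 * xk (Sum.inr 1) ^ w1) ∈ clusterVars Bm := by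
  subst hX h0 h1
  exact ⟨s, hs, i, (R.x i).symm⟩

theorem EK_mem (i : Fin 9) : EK i ∈ clusterVars Bm := by
  have hd0 : ∀ l, HK.B l l = 0 := inv_K.diag base_K
  have r1 := rel_K.mut ck_ne hd0 1
  have s1 : Sh1 PK (HK.mut 1) 0 1 2 := Sh5.mi base_K.ok H0_shape
  have r10 := r1.mut ck_ne s1.diag 0
  have s10 : Sh2 PK ((HK.mut 1).mut 0) 0 1 2 := Sh1.mi base_K.ok s1
  have r12 := r1.mut ck_ne s1.diag 2
  have s12 : Sh2 PK.flip.next ((HK.mut 1).mut 2) 0 1 2 := s1.flip.mk base_K.flip.ok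
  have r0 := rel_K.mut ck_ne hd0 0
  have s0 : Sh4 PK (HK.mut 0) 1 0 2 := Sh5.mj base_K.ok H0_shape
  have r02 := r0.mut ck_ne s0.diag 2
  have s02 : Sh2 PK.next ((HK.mut 0).mut 2) 1 0 2 := s0.mk base_K.ok
  have r2 := rel_K.mut ck_ne hd0 2
  have s2 := Sh5.mk base_K.ok H0_shape
  have h0 := xk_ne (Sum.inl 0)
  have h1 := xk_ne (Sum.inl 1)
  have h2 := xk_ne (Sum.inl 2)
  have h3 := xk_ne (Sum.inr 0)
  have h4 := xk_ne (Sum.inr 1)
  fin_cases i
  · exact ⟨_, Reach.refl, 0, rfl⟩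
  · exact ⟨_, Reach.refl, 1, rfl⟩
  · exact ⟨_, Reach.refl, 2, rfl⟩
  · have := mem_of_at (.step _ _ (.step _ _ .refl)) r10 s10.X1 (s10.W1 0) (s10.W1 1)
    refine Set.mem_of_eq_of_mem ?_ this
    simp [EK, E, PK, P0]; field_simp
  · have := mem_of_at (.step _ _ .refl) r1 s1.X2 (s1.W2 0) (s1.W2 1)
    refine Set.mem_of_eq_of_mem ?_ this
    simp [EK, E, PK, P0, Pent.wS]; field_simp
  · have := mem_of_at (.step _ _ .refl) r0 s0.X2 (s0.W2 0) (s0.W2 1)
    refine Set.mem_of_eq_of_mem ?_ this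
    simp [EK, E, PK, P0, Pent.wT]; field_simp
  · have := mem_of_at (.step _ _ (.step _ _ .refl)) r12 s12.X3 (s12.W3 0) (s12.W3 1)
    refine Set.mem_of_eq_of_mem ?_ this
    simp [EK, E, PK, P0, Pent.next, Pent.flip]; field_simp; ring
  · have := mem_of_at (.step _ _ (.step _ _ .refl)) r02 s02.X3 (s02.W3 0) (s02.W3 1)
    refine Set.mem_of_eq_of_mem ?_ this
    simp [EK, E, PK, P0, Pent.next, Pent.flip]; field_simp; ring
  · have := mem_of_at (.step _ _ .refl) r2 s2.X3 (s2.W3 0) (s2.W3 1)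
    refine Set.mem_of_eq_of_mem ?_ this
    simp [EK, E, PK, P0, Pent.next, Pent.flip]; field_simp

end Pool.Agent.Y945.CB
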