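import Pool.Agent.Y945.CB.Grade

set_option linter.unusedSectionVars false
set_option linter.unusedSimpArgs false

namespace Pool.Agent.Y945.CB

open MvPolynomial

/-! ### components -/

/-- `y` is the component of `x` for the eigenvalue `μ` -/
def IsComp (x : K) (μ : ℂ) (y : K) : Prop :=
  y ∈ Module.End.eigenspace Phi μ ∧ x - y ∈ ⨆ ν, ⨆ (_ : ν ≠ μ), Module.End.eigenspace Phi ν

theorem IsComp.unique {x : K} {μ : ℂ} {y y' : K} (h : IsComp x μ y) (h' : IsComp x μ y') :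
    y = y' := by
  have hd : Disjoint (Module.End.eigenspace Phi μ)
      (⨆ ν, ⨆ (_ : ν ≠ μ), Module.End.eigenspace Phi ν) :=
    Module.End.eigenspaces_iSupIndep Phi μ
  have h1 : y - y' ∈ Module.End.eigenspace Phi μ := sub_mem h.1 h'.1
  have h2 : y - y' ∈ ⨆ ν, ⨆ (_ : ν ≠ μ), Module.End.eigenspace Phi ν := by
    have := sub_mem h'.2 h.2
    rwa [sub_sub_sub_cancel_left] at this
  exact sub_eq_zero.1 (Submodule.disjoint_def.1 hd _ h1 h2)

theorem IsComp.add {x x' : K} {μ : ℂ} {y y' : K} (h : IsComp x μ y) (h' : IsComp x' μ y') :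
    IsComp (x + x') μ (y + y') := by
  refine ⟨add_mem h.1 h'.1, ?_⟩
  have := add_mem h.2 h'.2
  rwa [show x - y + (x' - y') = x + x' - (y + y') by ring] at this

theorem IsComp.smul {x : K} {μ : ℂ} {y : K} (h : IsComp x μ y) (a : ℂ) :
    IsComp (a • x) μ (a • y) := by
  refine ⟨Submodule.smul_mem _ _ h.1, ?_⟩
  rw [← smul_sub]
  exact Submodule.smul_mem _ _ h.2

theorem IsComp.self {x : K} {μ : ℂ} (h : Phi x = μ • x) : IsComp x μ x := by
  refine ⟨Module.End.mem_eigenspace_iff.2 h, ?_⟩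
  rw [sub_self]
  exact zero_mem _

theorem IsComp.mul {x y : K} {μ : ℂ} (h : IsComp x μ y) {c : K} {γ : ℂ} (hγ : γ ≠ 0)
    (hc : Phi c = γ • c) : IsComp (c * x) (γ * μ) (c * y) := by
  have key : ∀ {ν : ℂ} {z : K}, z ∈ Module.End.eigenspace Phi ν →
      c * z ∈ Module.End.eigenspace Phi (γ * ν) := by
    intro ν z hz
    rw [Module.End.mem_eigenspace_iff] at hz ⊢
    rw [Phi_apply] at *
    rw [map_mul, hz, hc, smul_mul_smul_comm]
  refine ⟨key h.1, ?_⟩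
  rw [← mul_sub]
  have hle : (⨆ ν, ⨆ (_ : ν ≠ μ), Module.End.eigenspace Phi ν) ≤
      Submodule.comap (LinearMap.mulLeft ℂ c)
        (⨆ ν, ⨆ (_ : ν ≠ γ * μ), Module.End.eigenspace Phi ν) := by
    refine iSup₂_le fun ν hν z hz => ?_
    rw [Submodule.mem_comap, LinearMap.mulLeft_apply]
    have hne : γ * ν ≠ γ * μ := fun h => hν (mul_left_cancel₀ hγ h)
    exact (le_iSup₂ (f := fun ν (_ : ν ≠ γ * μ) => Module.End.eigenspace Phi ν) (γ * ν) hne)
      (key hz)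
  exact hle h.2

theorem exists_comp {x : K} (hx : x ∈ Submodule.span ℂ (MM : Set K)) (μ : ℂ) :
    ∃ y ∈ Submodule.span ℂ {m | m ∈ MM ∧ Phi m = μ • m}, IsComp x μ y := by
  induction hx using Submodule.span_induction with
  | mem m hm =>
    obtain ⟨u, v, w, hh⟩ : ∃ u v w, Hom u v w m := by
      obtain ⟨-, ⟨e, n, rfl⟩ | ⟨u, v, w, -, -, -, hh⟩⟩ := MM_cases hm
      · exact ⟨_, _, _, mono_hom e n⟩
      · exact ⟨_, _, _, hh⟩
    by_cases h : lam u v w = μ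
    · subst h
      exact ⟨m, Submodule.subset_span ⟨hm, hh⟩, IsComp.self hh⟩
    · refine ⟨0, zero_mem _, zero_mem _, ?_⟩
      rw [sub_zero]
      exact (le_iSup₂ (f := fun ν (_ : ν ≠ μ) => Module.End.eigenspace Phi ν) _ h)
        (Module.End.mem_eigenspace_iff.2 hh)
  | zero => exact ⟨0, zero_mem _, zero_mem _, by rw [sub_zero]; exact zero_mem _⟩
  | add x y _ _ ihx ihy =>
    obtain ⟨a, ha, ha'⟩ := ihx
    obtain ⟨b, hb, hb'⟩ := ihy
    exact ⟨a + b, add_mem ha hb, ha'.add hb'⟩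
  | smul a x _ ih =>
    obtain ⟨b, hb, hb'⟩ := ih
    exact ⟨a • b, Submodule.smul_mem _ _ hb, hb'.smul a⟩

/-! ### values at a point -/

/-- `z` is regular at the point `p` with value `v` -/
def Ev (p : Ix → ℂ) (z : K) (v : ℂ) : Prop :=
  ∃ g k : Rg, eval p k ≠ 0 ∧ z = algebraMap Rg K g / algebraMap Rg K k ∧
    v = eval p g / eval p k

variable {p : Ix → ℂ} {z z' : K} {v v' : ℂ}

theorem alg_ne {k : Rg} (hk : eval p k ≠ 0) : algebraMap Rg K k ≠ 0 := by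
  intro h0
  apply hk
  have : k = 0 := by
    apply IsFractionRing.injective Rg K
    rw [h0, map_zero]
  rw [this, map_zero]

theorem Ev.unique (h : Ev p z v) (h' : Ev p z v') : v = v' := by
  obtain ⟨g, k, hk, rfl, rfl⟩ := h
  obtain ⟨g', k', hk', hz, rfl⟩ := h'
  rw [div_eq_div_iff (alg_ne hk) (alg_ne hk'), ← map_mul, ← map_mul] at hz
  have := IsFractionRing.injective Rg K hz
  rw [div_eq_div_iff hk hk', ← map_mul, ← map_mul, this]

theorem Ev.add (h : Ev p z v) (h' : Ev p z' v') : Ev p (z + z') (v + v') := by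
  obtain ⟨g, k, hk, rfl, rfl⟩ := h
  obtain ⟨g', k', hk', rfl, rfl⟩ := h'
  refine ⟨g * k' + k * g', k * k', by rw [map_mul]; exact mul_ne_zero hk hk', ?_, ?_⟩
  · rw [div_add_div _ _ (alg_ne hk) (alg_ne hk')]; simp
  · rw [div_add_div _ _ hk hk']; simp

theorem Ev.mul (h : Ev p z v) (h' : Ev p z' v') : Ev p (z * z') (v * v') := by
  obtain ⟨g, k, hk, rfl, rfl⟩ := h
  obtain ⟨g', k', hk', rfl, rfl⟩ := h'
  refine ⟨g * g', k * k', by rw [map_mul]; exact mul_ne_zero hk hk', ?_, ?_⟩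
  · rw [div_mul_div_comm]; simp
  · rw [div_mul_div_comm]; simp

theorem Ev.const (w : ℂ) : Ev p (algebraMap ℂ K w) w :=
  ⟨C w, 1, by simp, by
    rw [← MvPolynomial.algebraMap_eq, ← IsScalarTower.algebraMap_apply ℂ Rg K, map_one, div_one],
    by simp⟩

theorem Ev.smul (h : Ev p z v) (w : ℂ) : Ev p (w • z) (w * v) := by
  rw [Algebra.smul_def]; exact (Ev.const w).mul h

theorem Ev.pow (h : Ev p z v) (n : ℕ) : Ev p (z ^ n) (v ^ n) := by
  induction n with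
  | zero =>
    have := Ev.const (p := p) 1
    simpa using this
  | succ n ih => rw [pow_succ, pow_succ]; exact ih.mul h

theorem Ev.inv (h : Ev p z v) (hv : v ≠ 0) : Ev p z⁻¹ v⁻¹ := by
  obtain ⟨g, k, hk, rfl, rfl⟩ := h
  refine ⟨k, g, ?_, by rw [inv_div], by rw [inv_div]⟩
  intro h0
  rw [h0, zero_div] at hv
  exact hv rfl

theorem Ev.div (h : Ev p z v) (h' : Ev p z' v') (hv : v' ≠ 0) : Ev p (z / z') (v / v') := by
  rw [div_eq_mul_inv, div_eq_mul_inv]; exact h.mul (h'.inv hv)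

theorem Ev.x (i : Ix) : Ev p (xk i) (p i) := ⟨X i, 1, by simp, by simp [xk], by simp⟩

theorem Ev.E (ha : p (Sum.inl 0) ≠ 0) (hb : p (Sum.inl 1) ≠ 0) (ht : p (Sum.inl 2) ≠ 0)
    (i : Fin 9) : Ev p (EK i) (CB.E (p (Sum.inl 0)) (p (Sum.inl 1)) (p (Sum.inl 2))
      (p (Sum.inr 0)) (p (Sum.inr 1)) i) := by
  have a := Ev.x (p := p) (Sum.inl 0)
  have b := Ev.x (p := p) (Sum.inl 1)
  have t := Ev.x (p := p) (Sum.inl 2)
  have x := Ev.x (p := p) (Sum.inr 0)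
  have y := Ev.x (p := p) (Sum.inr 1)
  fin_cases i
  · exact a
  · exact b
  · exact t
  · exact Ev.div ((((x.mul (y.pow 3)).mul a).add (t.pow 3)).add (((x.pow 3).mul y).mul b))
      (a.mul b) (mul_ne_zero ha hb)
  · exact Ev.div ((t.pow 3).add ((a.mul x).mul (y.pow 3))) b hb
  · exact Ev.div (((b.mul (x.pow 3)).mul y).add (t.pow 3)) a ha
  · exact Ev.div (((Ev.div ((t.pow 3).add ((a.mul x).mul (y.pow 3))) b hb).pow 2).add
      ((x.pow 6).mul (y.pow 2))) t ht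
  · exact Ev.div (((Ev.div (((b.mul (x.pow 3)).mul y).add (t.pow 3)) a ha).pow 2).add
      ((x.pow 2).mul (y.pow 6))) t ht
  · exact Ev.div (((y.pow 4).mul (a.pow 2)).add ((x.pow 4).mul (b.pow 2))) t ht

/-! ### the argument with the basis -/

section basis

variable {V : Type} [Field V] [Algebra ℂ V]

/-- splitting of an element along a stable basis -/
theorem split_basis {S : Set V} (hS : LinearIndependent ℂ ((↑) : S → V)) {c d : V} (hc : c ≠ 0)
    (hd : d ≠ 0) (sc : ∀ b ∈ S, c * b ∈ S) (sd : ∀ b ∈ S, d * b ∈ S) {r U W : V}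
    (hr : r ∈ Submodule.span ℂ S) (hU : U ∈ Submodule.span ℂ S) (hW : W ∈ Submodule.span ℂ S)
    (h : c * d * r = c ^ 2 * U + d ^ 2 * W) :
    ∃ X1 ∈ Submodule.span ℂ S, ∃ X2 ∈ Submodule.span ℂ S, ∃ Z1 ∈ Submodule.span ℂ S,
      ∃ Z2 ∈ Submodule.span ℂ S, r = X1 + X2 ∧ d * X1 = c * Z1 ∧ c * X2 = d * Z2 := by
  have hr' : r ∈ Submodule.span ℂ (Set.range ((↑) : S → V)) := by
    rwa [Subtype.range_coe]
  obtain ⟨l, hl⟩ := (Finsupp.mem_span_range_iff_exists_finsupp).1 hr'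
  let f : S → S := fun b => ⟨c * d * b, by rw [mul_assoc]; exact sc _ (sd _ b.2)⟩
  have hf : Function.Injective f := by
    intro b b' hbb
    have := congrArg Subtype.val hbb
    simp only [f] at this
    exact Subtype.ext (mul_left_cancel₀ (mul_ne_zero hc hd) this)
  let T : Set S := {b | (∃ b' : S, (b : V) = c ^ 2 * b') ∨ ∃ b' : S, (b : V) = d ^ 2 * b'}
  have hT : c * d * r ∈ Submodule.span ℂ (((↑) : S → V) '' T) := by
    rw [h]
    have g : ∀ e : V, (∀ b ∈ S, e ^ 2 * b ∈ ((↑) : S → V) '' T) → ∀ u ∈ Submodule.span ℂ S,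
        e ^ 2 * u ∈ Submodule.span ℂ (((↑) : S → V) '' T) := by
      intro e he u hu
      induction hu using Submodule.span_induction with
      | mem b hb => exact Submodule.subset_span (he b hb)
      | zero => rw [mul_zero]; exact zero_mem _
      | add x y _ _ hx hy => rw [mul_add]; exact add_mem hx hy
      | smul a x _ hx => rw [mul_smul_comm]; exact Submodule.smul_mem _ _ hx
    refine add_mem (g c ?_ U hU) (g d ?_ W hW)
    · intro b hb
      have : c ^ 2 * b ∈ S := by rw [pow_two, mul_assoc]; exact sc _ (sc _ hb)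
      exact ⟨⟨_, this⟩, Or.inl ⟨⟨b, hb⟩, rfl⟩, rfl⟩
    · intro b hb
      have : d ^ 2 * b ∈ S := by rw [pow_two, mul_assoc]; exact sd _ (sd _ hb)
      exact ⟨⟨_, this⟩, Or.inr ⟨⟨b, hb⟩, rfl⟩, rfl⟩
  obtain ⟨l', hl', hl''⟩ := (Finsupp.mem_span_image_iff_linearCombination ℂ).1 hT
  have e1 : Finsupp.linearCombination ℂ ((↑) : S → V) (Finsupp.mapDomain f l) = c * d * r := by
    rw [Finsupp.linearCombination_mapDomain, ← hl, Finsupp.linearCombination_apply, Finsupp.sum,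
      Finsupp.sum, Finset.mul_sum]
    refine Finset.sum_congr rfl fun b _ => ?_
    simp only [f, Function.comp_apply, mul_smul_comm]
  have e2 : l' = Finsupp.mapDomain f l := hS (hl''.trans e1.symm)
  have e3 : ∀ b ∈ l.support, f b ∈ T := by
    classical
    intro b hb
    apply hl'
    rw [Finset.mem_coe, e2, Finsupp.mapDomain_support_of_injective hf]
    exact Finset.mem_image_of_mem f hb
  have e4 : r ∈ Submodule.span ℂ ({b | b ∈ S ∧ ∃ b' ∈ S, d * b = c * b'} ∪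
      {b | b ∈ S ∧ ∃ b' ∈ S, c * b = d * b'}) := by
    rw [← hl]
    refine Submodule.sum_mem _ fun b hb => Submodule.smul_mem _ _ (Submodule.subset_span ?_)
    rcases e3 b hb with ⟨b', hb'⟩ | ⟨b', hb'⟩
    · left
      refine ⟨b.2, b', b'.2, mul_left_cancel₀ hc ?_⟩
      simp only [f] at hb'
      linear_combination hb'
    · right
      refine ⟨b.2, b', b'.2, mul_left_cancel₀ hd ?_⟩
      simp only [f] at hb'
      linear_combination hb'
  rw [Submodule.span_union] at e4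
  obtain ⟨X1, h1, X2, h2, h3⟩ := Submodule.mem_sup.1 e4
  have g : ∀ c d : V, ∀ u ∈ Submodule.span ℂ {b | b ∈ S ∧ ∃ b' ∈ S, d * b = c * b'},
      u ∈ Submodule.span ℂ S ∧ ∃ Z ∈ Submodule.span ℂ S, d * u = c * Z := by
    intro c d u hu
    induction hu using Submodule.span_induction with
    | mem b hb =>
      obtain ⟨hb, b', hb', h⟩ := hb
      exact ⟨Submodule.subset_span hb, b', Submodule.subset_span hb', h⟩
    | zero => exact ⟨zero_mem _, 0, zero_mem _, by simp⟩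
    | add x y _ _ hx hy =>
      obtain ⟨hx, Z, hZ, h⟩ := hx
      obtain ⟨hy, Z', hZ', h'⟩ := hy
      exact ⟨add_mem hx hy, Z + Z', add_mem hZ hZ', by rw [mul_add, mul_add, h, h']⟩
    | smul a x _ hx =>
      obtain ⟨hx, Z, hZ, h⟩ := hx
      exact ⟨Submodule.smul_mem _ _ hx, a • Z, Submodule.smul_mem _ _ hZ, by
        rw [mul_smul_comm, mul_smul_comm, h]⟩
  obtain ⟨m1, Z1, hZ1, k1⟩ := g c d X1 h1
  obtain ⟨m2, Z2, hZ2, k2⟩ := g d c X2 h2
  exact ⟨X1, m1, X2, m2, Z1, hZ1, Z2, hZ2, h3.symm, k1, k2⟩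

end basis

theorem span_eq_MM : Subalgebra.toSubmodule (clusterAlgebra Bm) =
    Submodule.span ℂ (MM : Set K) := by
  rw [clusterAlgebra, Algebra.adjoin_eq_span]
  rfl

theorem EK_span (i : Fin 9) : EK i ∈ clusterAlgebra Bm :=
  Algebra.subset_adjoin (Or.inl (EK_mem i))

theorem comp442 {x y : K} (hx : x ∈ Submodule.span ℂ (MM : Set K))
    (hy : IsComp x (lam 4 4 2) y) :
    ∃ α β : ℂ, y = α • (EK 3 * EK 8) + β • (EK 2 ^ 2 * ck 0 ^ 2 * ck 1 ^ 2) := by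
  obtain ⟨y', hy', h⟩ := exists_comp hx (lam 4 4 2)
  rw [hy.unique h]
  have : y' ∈ Submodule.span ℂ {EK 3 * EK 8, EK 2 ^ 2 * ck 0 ^ 2 * ck 1 ^ 2} := by
    refine Submodule.span_mono ?_ hy'
    rintro m ⟨hm, hm'⟩
    exact deg442 hm hm'
  obtain ⟨α, β, hab⟩ := Submodule.mem_span_pair.1 this
  exact ⟨α, β, hab.symm⟩

theorem regular {T : Set K} (hT : ∀ m ∈ T, ∃ v, Ev p m v) {z : K} (hz : z ∈ Submodule.span ℂ T) :
    ∃ v, Ev p z v := by
  induction hz using Submodule.span_induction with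
  | mem m hm => exact hT m hm
  | zero => exact ⟨_, by simpa using Ev.const (p := p) 0⟩
  | add x y _ _ hx hy =>
    obtain ⟨v, hv⟩ := hx
    obtain ⟨v', hv'⟩ := hy
    exact ⟨_, hv.add hv'⟩
  | smul a x _ hx =>
    obtain ⟨v, hv⟩ := hx
    exact ⟨_, hv.smul a⟩

/-- the point with `c₀ = 0` -/
def p0 : Ix → ℂ := Sum.elim (fun _ => 1) ![0, 1]
/-- the point with `c₁ = 0` -/
def p1 : Ix → ℂ := Sum.elim (fun _ => 1) ![1, 0]

theorem ev_dR0 : Ev p0 (EK 3 * EK 8) 1 := by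
  have := (Ev.E (p := p0) (by simp [p0]) (by simp [p0]) (by simp [p0]) 3).mul
    (Ev.E (p := p0) (by simp [p0]) (by simp [p0]) (by simp [p0]) 8)
  have e : (CB.E (p0 (Sum.inl 0)) (p0 (Sum.inl 1)) (p0 (Sum.inl 2))
      (p0 (Sum.inr 0)) (p0 (Sum.inr 1)) 3) * (CB.E (p0 (Sum.inl 0)) (p0 (Sum.inl 1))
      (p0 (Sum.inl 2)) (p0 (Sum.inr 0)) (p0 (Sum.inr 1)) 8) = 1 := by
    simp [CB.E, p0]
  rwa [e] at this

theorem ev_dR1 : Ev p1 (EK 3 * EK 8) 1 := by
  have := (Ev.E (p := p1) (by simp [p1]) (by simp [p1]) (by simp [p1]) 3).mul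
    (Ev.E (p := p1) (by simp [p1]) (by simp [p1]) (by simp [p1]) 8)
  have e : (CB.E (p1 (Sum.inl 0)) (p1 (Sum.inl 1)) (p1 (Sum.inl 2))
      (p1 (Sum.inr 0)) (p1 (Sum.inr 1)) 3) * (CB.E (p1 (Sum.inl 0)) (p1 (Sum.inl 1))
      (p1 (Sum.inl 2)) (p1 (Sum.inr 0)) (p1 (Sum.inr 1)) 8) = 1 := by
    simp [CB.E, p1]
  rwa [e] at this

theorem ev_o0 : Ev p0 (EK 2 ^ 2 * ck 0 ^ 2 * ck 1 ^ 2) 0 := by
  have := (((Ev.E (p := p0) (by simp [p0]) (by simp [p0]) (by simp [p0]) 2).pow 2).mul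
    ((Ev.x (p := p0) (Sum.inr 0)).pow 2)).mul ((Ev.x (p := p0) (Sum.inr 1)).pow 2)
  have e : (CB.E (p0 (Sum.inl 0)) (p0 (Sum.inl 1)) (p0 (Sum.inl 2))
      (p0 (Sum.inr 0)) (p0 (Sum.inr 1)) 2) ^ 2 * p0 (Sum.inr 0) ^ 2 * p0 (Sum.inr 1) ^ 2 = 0 := by
    simp [CB.E, p0]
  rwa [e] at this

theorem ev_o1 : Ev p1 (EK 2 ^ 2 * ck 0 ^ 2 * ck 1 ^ 2) 0 := by
  have := (((Ev.E (p := p1) (by simp [p1]) (by simp [p1]) (by simp [p1]) 2).pow 2).mul
    ((Ev.x (p := p1) (Sum.inr 0)).pow 2)).mul ((Ev.x (p := p1) (Sum.inr 1)).pow 2)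
  have e : (CB.E (p1 (Sum.inl 0)) (p1 (Sum.inl 1)) (p1 (Sum.inl 2))
      (p1 (Sum.inr 0)) (p1 (Sum.inr 1)) 2) ^ 2 * p1 (Sum.inr 0) ^ 2 * p1 (Sum.inr 1) ^ 2 = 0 := by
    simp [CB.E, p1]
  rwa [e] at this

theorem lam_mul2 (u v w : ℤ) : 2 * lam u v w = lam (u + 1) v w := by
  unfold lam; rw [zpow_add₀ (by norm_num : (2 : ℂ) ≠ 0)]; ring

theorem lam_mul3 (u v w : ℤ) : 3 * lam u v w = lam u (v + 1) w := by
  unfold lam; rw [zpow_add₀ (by norm_num : (3 : ℂ) ≠ 0)]; ring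

theorem Phi_c0 : Phi (ck 0) = (2 : ℂ) • ck 0 := by
  have := ck_hom0; unfold Hom lam at this; simpa using this

theorem Phi_c1 : Phi (ck 1) = (3 : ℂ) • ck 1 := by
  have := ck_hom1; unfold Hom lam at this; simpa using this

/-- no additive basis is stable under multiplication by the two coefficient variables -/
theorem no_stable (S : Set K) (hS : IsAdditiveBasis Bm S) : ¬ CoeffStable S := by
  intro hst
  have hA : Submodule.span ℂ S = Submodule.span ℂ (MM : Set K) := by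
    rw [hS.span_eq, span_eq_MM]
  have hmem : ∀ z : K, z ∈ clusterAlgebra Bm → z ∈ Submodule.span ℂ S := by
    intro z hz; rw [hS.span_eq]; exact hz
  have hr : EK 3 * EK 8 ∈ Submodule.span ℂ S := hmem _ (mul_mem (EK_span 3) (EK_span 8))
  have hU : EK 0 * EK 7 - EK 2 ^ 2 * EK 5 ∈ Submodule.span ℂ S :=
    hmem _ (sub_mem (mul_mem (EK_span 0) (EK_span 7)) (mul_mem (pow_mem (EK_span 2) 2) (EK_span 5)))
  have hW : EK 1 * EK 6 - EK 2 ^ 2 * EK 4 ∈ Submodule.span ℂ S :=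
    hmem _ (sub_mem (mul_mem (EK_span 1) (EK_span 6)) (mul_mem (pow_mem (EK_span 2) 2) (EK_span 4)))
  have hkey : ck 0 * ck 1 * (EK 3 * EK 8) = ck 0 ^ 2 * (EK 0 * EK 7 - EK 2 ^ 2 * EK 5) +
      ck 1 ^ 2 * (EK 1 * EK 6 - EK 2 ^ 2 * EK 4) :=
    key_identity (xk_ne _) (xk_ne _) (xk_ne _)
  obtain ⟨X1, h1, X2, h2, Z1, hZ1, Z2, hZ2, hX, e1, e2⟩ := split_basis hS.linearIndependent
    (ck_ne 0) (ck_ne 1) (hst 0) (hst 1) hr hU hW hkey
  rw [hA] at h1 h2 hZ1 hZ2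
  obtain ⟨y1, -, c1⟩ := exists_comp h1 (lam 4 4 2)
  obtain ⟨y2, -, c2⟩ := exists_comp h2 (lam 4 4 2)
  obtain ⟨z1, m1, d1⟩ := exists_comp hZ1 (lam 3 5 2)
  obtain ⟨z2, m2, d2⟩ := exists_comp hZ2 (lam 5 3 2)
  obtain ⟨α, β, f1⟩ := comp442 h1 c1
  obtain ⟨α', β', f2⟩ := comp442 h2 c2
  -- first part
  have g1 : ck 1 * y1 = ck 0 * z1 := by
    have a1 := c1.mul (by norm_num) Phi_c1
    have a2 := d1.mul (by norm_num) Phi_c0
    rw [e1, lam_mul3] at a1
    rw [lam_mul2] at a2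
    exact a1.unique a2
  have g2 : ck 0 * y2 = ck 1 * z2 := by
    have a1 := c2.mul (by norm_num) Phi_c0
    have a2 := d2.mul (by norm_num) Phi_c1
    rw [e2, lam_mul2] at a1
    rw [lam_mul3] at a2
    exact a1.unique a2
  have hp0 : ∀ i, Ev p0 (EK i) _ := Ev.E (p := p0) (by simp [p0]) (by simp [p0]) (by simp [p0])
  have hp1 : ∀ i, Ev p1 (EK i) _ := Ev.E (p := p1) (by simp [p1]) (by simp [p1]) (by simp [p1])
  have cc0 : ∀ i, Ev p0 (ck i) (p0 (Sum.inr i)) := fun i => Ev.x (Sum.inr i)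
  have cc1 : ∀ i, Ev p1 (ck i) (p1 (Sum.inr i)) := fun i => Ev.x (Sum.inr i)
  have r1 : ∃ v, Ev p0 z1 v := by
    refine regular ?_ m1
    rintro m ⟨hm, hm'⟩
    rcases deg352 hm hm' with rfl | rfl | rfl | rfl
    · exact ⟨_, (((hp0 2).pow 2).mul (cc0 0)).mul ((cc0 1).pow 3)⟩
    · exact ⟨_, ((hp0 2).pow 2).mul (hp0 5)⟩
    · exact ⟨_, ((hp0 1).mul ((hp0 2).pow 2)).mul (hp0 3)⟩
    · exact ⟨_, (hp0 0).mul (hp0 7)⟩
  have r2 : ∃ v, Ev p1 z2 v := by
    refine regular ?_ m2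
    rintro m ⟨hm, hm'⟩
    rcases deg532 hm hm' with rfl | rfl | rfl | rfl
    · exact ⟨_, (((hp1 2).pow 2).mul ((cc1 0).pow 3)).mul (cc1 1)⟩
    · exact ⟨_, ((hp1 2).pow 2).mul (hp1 4)⟩
    · exact ⟨_, ((hp1 0).mul ((hp1 2).pow 2)).mul (hp1 3)⟩
    · exact ⟨_, (hp1 1).mul (hp1 6)⟩
  have ha : α = 0 := by
    obtain ⟨v, hv⟩ := r1
    have a1 := (cc0 0).mul hv
    rw [← g1, f1] at a1
    have a2 := (cc0 1).mul ((ev_dR0.smul α).add (ev_o0.smul β))
    have := a2.unique a1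
    simpa [p0] using this
  have ha' : α' = 0 := by
    obtain ⟨v, hv⟩ := r2
    have a1 := (cc1 1).mul hv
    rw [← g2, f2] at a1
    have a2 := (cc1 0).mul ((ev_dR1.smul α').add (ev_o1.smul β'))
    have := a2.unique a1
    simpa [p1] using this
  have hd : Phi (EK 3 * EK 8) = lam 4 4 2 • (EK 3 * EK 8) := by
    have := (EK_hom 3).mul (EK_hom 8)
    simpa [CB.e0, CB.e1, CB.e2, Hom] using this
  have hy : y1 + y2 = EK 3 * EK 8 := by
    have := c1.add c2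
    rw [← hX] at this
    exact this.unique (IsComp.self hd)
  rw [f1, f2, ha, ha'] at hy
  have b1 := ((ev_dR0.smul 0).add (ev_o0.smul β)).add ((ev_dR0.smul 0).add (ev_o0.smul β'))
  rw [hy] at b1
  have := b1.unique ev_dR0
  norm_num at this

end Pool.Agent.Y945.CB
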