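import Pool.Agent.Y945.CB.FieldK

set_option linter.unusedSectionVars false
set_option linter.unusedSimpArgs false

namespace Pool.Agent.Y945.CB

theorem sol1 (a b t d p q P Q R m n : ℕ)
    (h0 : 2 * a + t + d + 3 * p + q + 5 * P + Q + 3 * R + m = 4)
    (h1 : 2 * b + t + d + p + 3 * q + P + 5 * Q + 3 * R + n = 4)
    (h2 : (3 * a + 3 * b + t - 3 * d - P - Q + 5 * R : ℤ) = 2) :
    (a = 0 ∧ b = 0 ∧ t = 0 ∧ d = 1 ∧ p = 0 ∧ q = 0 ∧ P = 0 ∧ Q = 0 ∧ R = 1 ∧ m = 0 ∧ n = 0) ∨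
    (a = 0 ∧ b = 0 ∧ t = 2 ∧ d = 0 ∧ p = 0 ∧ q = 0 ∧ P = 0 ∧ Q = 0 ∧ R = 0 ∧ m = 2 ∧ n = 2) := by
  have : P = 0 := by omega
  have : Q = 0 := by omega
  have : R ≤ 1 := by omega
  have : p ≤ 1 := by omega
  have : q ≤ 1 := by omega
  have : a ≤ 2 := by omega
  have : b ≤ 2 := by omega
  interval_cases R <;> interval_cases p <;> interval_cases q <;> interval_cases a <;>
    interval_cases b <;> omega

theorem sol2 (a b t d p q P Q R m n : ℕ)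
    (h0 : 2 * a + t + d + 3 * p + q + 5 * P + Q + 3 * R + m = 3)
    (h1 : 2 * b + t + d + p + 3 * q + P + 5 * Q + 3 * R + n = 5)
    (h2 : (3 * a + 3 * b + t - 3 * d - P - Q + 5 * R : ℤ) = 2) :
    (a = 0 ∧ b = 0 ∧ t = 2 ∧ d = 0 ∧ p = 0 ∧ q = 0 ∧ P = 0 ∧ Q = 0 ∧ R = 0 ∧ m = 1 ∧ n = 3) ∨
    (a = 0 ∧ b = 0 ∧ t = 2 ∧ d = 0 ∧ p = 0 ∧ q = 1 ∧ P = 0 ∧ Q = 0 ∧ R = 0 ∧ m = 0 ∧ n = 0) ∨
    (a = 0 ∧ b = 1 ∧ t = 2 ∧ d = 1 ∧ p = 0 ∧ q = 0 ∧ P = 0 ∧ Q = 0 ∧ R = 0 ∧ m = 0 ∧ n = 0) ∨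
    (a = 1 ∧ b = 0 ∧ t = 0 ∧ d = 0 ∧ p = 0 ∧ q = 0 ∧ P = 0 ∧ Q = 1 ∧ R = 0 ∧ m = 0 ∧ n = 0) := by
  have hP : P = 0 := by omega
  subst hP
  have hR : R = 0 := by omega
  subst hR
  have hp : p = 0 := by omega
  subst hp
  have hQ : Q ≤ 1 := by omega
  have hq : q ≤ 1 := by omega
  interval_cases Q
  · have ht : t = 2 := by omega
    subst ht
    have ha : a = 0 := by omega
    subst ha
    interval_cases q
    · have hd : d ≤ 1 := by omega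
      have hb : b = d := by omega
      subst hb
      interval_cases b
      · left; refine ⟨rfl, rfl, rfl, rfl, rfl, rfl, rfl, rfl, rfl, by omega, by omega⟩
      · right; right; left
        refine ⟨rfl, rfl, rfl, rfl, rfl, rfl, rfl, rfl, rfl, by omega, by omega⟩
    · right; left
      refine ⟨rfl, by omega, rfl, by omega, rfl, rfl, rfl, rfl, rfl, by omega, by omega⟩
  · right; right; right
    have : q = 0 := by omega
    have : t = 0 := by omega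
    have : d = 0 := by omega
    refine ⟨by omega, by omega, by omega, by omega, rfl, by omega, rfl, rfl, rfl, by omega, by omega⟩

/-- the eigenvalues of the scaling -/
noncomputable def lam (u v w : ℤ) : ℂ := 2 ^ u * 3 ^ v * 5 ^ w

theorem lam_ne (u v w : ℤ) : lam u v w ≠ 0 := by
  unfold lam
  exact mul_ne_zero (mul_ne_zero (zpow_ne_zero _ (by norm_num)) (zpow_ne_zero _ (by norm_num)))
    (zpow_ne_zero _ (by norm_num))

theorem val_aux (p : ℕ) [Fact p.Prime] (u v w : ℤ) :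
    padicValRat p ((2 : ℚ) ^ u * 3 ^ v * 5 ^ w) =
      u * padicValNat p 2 + v * padicValNat p 3 + w * padicValNat p 5 := by
  have h2 : ((2 : ℚ) ^ u) ≠ 0 := zpow_ne_zero _ (by norm_num)
  have h3 : ((3 : ℚ) ^ v) ≠ 0 := zpow_ne_zero _ (by norm_num)
  have h5 : ((5 : ℚ) ^ w) ≠ 0 := zpow_ne_zero _ (by norm_num)
  rw [padicValRat.mul (mul_ne_zero h2 h3) h5, padicValRat.mul h2 h3, padicValRat.zpow,
    padicValRat.zpow, padicValRat.zpow]
  rw [← padicValRat.of_nat, ← padicValRat.of_nat, ← padicValRat.of_nat]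
  norm_num

theorem lam_inj {u v w u' v' w' : ℤ} (h : lam u v w = lam u' v' w') :
    u = u' ∧ v = v' ∧ w = w' := by
  have hq : ((2 : ℚ) ^ u * 3 ^ v * 5 ^ w) = ((2 : ℚ) ^ u' * 3 ^ v' * 5 ^ w') := by
    have : (((2 : ℚ) ^ u * 3 ^ v * 5 ^ w : ℚ) : ℂ) = (((2 : ℚ) ^ u' * 3 ^ v' * 5 ^ w' : ℚ) : ℂ) := by
      push_cast
      exact h
    exact_mod_cast this
  have : Fact (Nat.Prime 2) := ⟨by norm_num⟩
  have : Fact (Nat.Prime 3) := ⟨by norm_num⟩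
  have : Fact (Nat.Prime 5) := ⟨by norm_num⟩
  have z : ∀ p n : ℕ, ¬ p ∣ n → padicValNat p n = 0 := fun p n hn =>
    padicValNat.eq_zero_of_not_dvd hn
  have a2 := congrArg (padicValRat 2) hq
  have a3 := congrArg (padicValRat 3) hq
  have a5 := congrArg (padicValRat 5) hq
  rw [val_aux, val_aux, padicValNat_self, z 2 3 (by norm_num), z 2 5 (by norm_num)] at a2
  rw [val_aux, val_aux, padicValNat_self, z 3 2 (by norm_num), z 3 5 (by norm_num)] at a3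
  rw [val_aux, val_aux, padicValNat_self, z 5 2 (by norm_num), z 5 3 (by norm_num)] at a5
  push_cast at a2 a3 a5
  refine ⟨by linarith, by linarith, by linarith⟩

/-- homogeneous elements -/
def Hom (u v w : ℤ) (m : K) : Prop := Phi m = lam u v w • m

theorem Hom.of_phi {u v w : ℤ} {m : K} (h : phi m = 2 ^ u * 3 ^ v * 5 ^ w * m) : Hom u v w m := by
  have e2 : algebraMap ℂ K 2 = 2 := mu_simp.2.2.2.1
  have e3 : algebraMap ℂ K 3 = 3 := mu_simp.2.2.2.2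
  have e5 : algebraMap ℂ K 5 = 5 := by
    have := map_natCast (algebraMap ℂ K) 5
    exact_mod_cast this
  unfold Hom
  rw [Phi_apply, h, Algebra.smul_def, lam, map_mul, map_mul, map_zpow₀, map_zpow₀, map_zpow₀,
    e2, e3, e5]

theorem Hom.one : Hom 0 0 0 (1 : K) := by
  apply Hom.of_phi; simp

theorem Hom.mul {u v w u' v' w' : ℤ} {m m' : K} (h : Hom u v w m) (h' : Hom u' v' w' m') :
    Hom (u + u') (v + v') (w + w') (m * m') := by
  unfold Hom at *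
  rw [Phi_apply] at *
  rw [map_mul, h, h', smul_mul_smul_comm]
  congr 1
  unfold lam
  rw [zpow_add₀ (by norm_num : (2 : ℂ) ≠ 0), zpow_add₀ (by norm_num : (3 : ℂ) ≠ 0),
    zpow_add₀ (by norm_num : (5 : ℂ) ≠ 0)]
  ring

theorem Hom.pow {u v w : ℤ} {m : K} (h : Hom u v w m) (n : ℕ) :
    Hom (n * u) (n * v) (n * w) (m ^ n) := by
  induction n with
  | zero => simpa using Hom.one
  | succ n ih =>
    have := ih.mul h
    rw [← pow_succ] at this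
    have e : ∀ z : ℤ, ((n + 1 : ℕ) : ℤ) * z = n * z + z := by intro z; push_cast; ring
    rw [e, e, e]
    exact this

theorem Hom.deg {u v w u' v' w' : ℤ} {m : K} (hm : m ≠ 0) (h : Hom u v w m)
    (h' : Phi m = lam u' v' w' • m) : u = u' ∧ v = v' ∧ w = w' := by
  apply lam_inj
  unfold Hom at h
  rw [h] at h'
  exact smul_left_injective ℂ hm h'

/-- monomials in the core variables -/
noncomputable def mono (e : Fin 9 → ℕ) (n : Fin 2 → ℕ) : K :=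
  (∏ i, EK i ^ e i) * ∏ a, ck a ^ n a

theorem EK_ne (i : Fin 9) : EK i ≠ 0 := by
  obtain ⟨s, hs, k, hk⟩ := EK_mem i
  obtain ⟨h, R, I, -⟩ := reach_inv hs
  rw [hk, R.x k]
  exact mul_ne_zero (posCone.ne (I.1 k)) (mul_ne_zero (zpow_ne_zero _ (ck_ne 0))
        (zpow_ne_zero _ (ck_ne 1)))

theorem mono_ne (e : Fin 9 → ℕ) (n : Fin 2 → ℕ) : mono e n ≠ 0 :=
  mul_ne_zero (Finset.prod_ne_zero_iff.2 fun i _ => pow_ne_zero _ (EK_ne i))
    (Finset.prod_ne_zero_iff.2 fun i _ => pow_ne_zero _ (ck_ne i))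

theorem mono_mul (e e' : Fin 9 → ℕ) (n n' : Fin 2 → ℕ) :
    mono e n * mono e' n' = mono (e + e') (n + n') := by
  simp only [mono, Pi.add_apply, pow_add, Finset.prod_mul_distrib]
  ring

theorem ck_hom0 : Hom 1 0 0 (ck 0) := by
  apply Hom.of_phi; rw [ck, phi_c0]; simp

theorem ck_hom1 : Hom 0 1 0 (ck 1) := by
  apply Hom.of_phi; rw [ck, phi_c1]; simp

theorem EK_hom (i : Fin 9) : Hom (e0 i) (e1 i) (e2 i) (EK i) := Hom.of_phi (EK_gr i)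

theorem hom_prod (s : Finset (Fin 9)) (e : Fin 9 → ℕ) :
    Hom (∑ i ∈ s, e i * e0 i) (∑ i ∈ s, e i * e1 i) (∑ i ∈ s, e i * e2 i) (∏ i ∈ s, EK i ^ e i) := by
  classical
  induction s using Finset.induction_on with
  | empty => simpa using Hom.one
  | insert a s ha ih =>
    rw [Finset.sum_insert ha, Finset.sum_insert ha, Finset.sum_insert ha, Finset.prod_insert ha]
    exact ((EK_hom a).pow (e a)).mul ih

theorem mono_hom (e : Fin 9 → ℕ) (n : Fin 2 → ℕ) :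
    Hom ((∑ i, e i * e0 i) + n 0) ((∑ i, e i * e1 i) + n 1) (∑ i, e i * e2 i) (mono e n) := by
  have h := (hom_prod Finset.univ e).mul ((ck_hom0.pow (n 0)).mul (ck_hom1.pow (n 1)))
  rw [mono, Fin.prod_univ_two]
  simpa using h

/-- the monoid generated by the cluster and coefficient variables -/
noncomputable def MM : Submonoid K :=
  Submonoid.closure (clusterVars Bm ∪ Set.range (coeffVar : Fin 2 → K))

theorem MM_cases {m : K} (hm : m ∈ MM) : m ≠ 0 ∧ ((∃ e n, m = mono e n) ∨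
    ∃ u v w : ℤ, 0 ≤ u ∧ 0 ≤ v ∧ 9 ≤ u + v ∧ Hom u v w m) := by
  have nn : ∀ (e : Fin 9 → ℕ) (n : Fin 2 → ℕ), 0 ≤ (∑ i, (e i : ℤ) * e0 i) + (n 0 : ℤ) ∧
      0 ≤ (∑ i, (e i : ℤ) * e1 i) + (n 1 : ℤ) := by
    intro e n
    constructor
    · refine add_nonneg (Finset.sum_nonneg fun i _ => mul_nonneg (Int.natCast_nonneg _) ?_)
        (Int.natCast_nonneg _)
      fin_cases i <;> simp [e0]
    · refine add_nonneg (Finset.sum_nonneg fun i _ => mul_nonneg (Int.natCast_nonneg _) ?_)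
        (Int.natCast_nonneg _)
      fin_cases i <;> simp [e1]
  induction hm using Submonoid.closure_induction with
  | mem m hm =>
    rcases hm with hm | ⟨j, rfl⟩
    · rcases classify hm with ⟨i, rfl⟩ | ⟨h0, u, v, w, hu, hv, h9, hh⟩
      · refine ⟨EK_ne i, Or.inl ⟨Pi.single i 1, 0, ?_⟩⟩
        simp only [mono, Pi.zero_apply, pow_zero, Finset.prod_const_one, mul_one]
        rw [Finset.prod_eq_single i]
        · simp
        · intro j _ hj; simp [Pi.single_eq_of_ne hj]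
        · simp
      · exact ⟨h0, Or.inr ⟨u, v, w, hu, hv, h9, Hom.of_phi hh⟩⟩
    · refine ⟨ck_ne j, Or.inl ⟨0, Pi.single j 1, ?_⟩⟩
      simp only [mono, Pi.zero_apply, pow_zero, Finset.prod_const_one, one_mul]
      rw [Finset.prod_eq_single j]
      · simp; rfl
      · intro j _ hj; simp [Pi.single_eq_of_ne hj]
      · simp
  | one => exact ⟨one_ne_zero, Or.inl ⟨0, 0, by simp [mono]⟩⟩
  | mul m m' _ _ ih ih' =>
    obtain ⟨h0, h⟩ := ih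
    obtain ⟨h0', h'⟩ := ih'
    refine ⟨mul_ne_zero h0 h0', ?_⟩
    rcases h with ⟨e, n, rfl⟩ | ⟨u, v, w, hu, hv, h9, hh⟩
    · rcases h' with ⟨e', n', rfl⟩ | ⟨u', v', w', hu', hv', h9', hh'⟩
      · exact Or.inl ⟨_, _, mono_mul e e' n n'⟩
      · have := nn e n
        exact Or.inr ⟨_, _, _, by omega, by omega, by omega, (mono_hom e n).mul hh'⟩
    · rcases h' with ⟨e', n', rfl⟩ | ⟨u', v', w', hu', hv', h9', hh'⟩
      · have := nn e' n'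
        exact Or.inr ⟨_, _, _, by omega, by omega, by omega, hh.mul (mono_hom e' n')⟩
      · exact Or.inr ⟨_, _, _, by omega, by omega, by omega, hh.mul hh'⟩

theorem MM_deg {m : K} (hm : m ∈ MM) {u v w : ℤ} (h : Phi m = lam u v w • m)
    (h9 : u + v < 9) : ∃ e n, m = mono e n ∧
      (∑ i, (e i : ℤ) * e0 i) + (n 0 : ℤ) = u ∧ (∑ i, (e i : ℤ) * e1 i) + (n 1 : ℤ) = v ∧
      ∑ i, (e i : ℤ) * e2 i = w := by
  obtain ⟨h0, ⟨e, n, rfl⟩ | ⟨u', v', w', hu, hv, h9', hh⟩⟩ := MM_cases hm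
  · exact ⟨e, n, rfl, (mono_hom e n).deg h0 h⟩
  · obtain ⟨rfl, rfl, -⟩ := hh.deg h0 h
    omega

theorem deg_aux (e : Fin 9 → ℕ) (n : Fin 2 → ℕ) {u v : ℕ} {w : ℤ}
    (h0 : (∑ i, (e i : ℤ) * e0 i) + (n 0 : ℤ) = u) (h1 : (∑ i, (e i : ℤ) * e1 i) + (n 1 : ℤ) = v)
    (h2 : ∑ i, (e i : ℤ) * e2 i = w) :
    2 * e 0 + e 2 + e 3 + 3 * e 4 + e 5 + 5 * e 6 + e 7 + 3 * e 8 + n 0 = u ∧
    2 * e 1 + e 2 + e 3 + e 4 + 3 * e 5 + e 6 + 5 * e 7 + 3 * e 8 + n 1 = v ∧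
    (3 * e 0 + 3 * e 1 + e 2 - 3 * e 3 - e 6 - e 7 + 5 * e 8 : ℤ) = w := by
  simp [Fin.sum_univ_succ, e0] at h0
  simp [Fin.sum_univ_succ, e1] at h1
  simp [Fin.sum_univ_succ, e2] at h2
  refine ⟨by omega, by omega, by omega⟩

theorem mono_eq (e : Fin 9 → ℕ) (n : Fin 2 → ℕ) : mono e n =
    EK 0 ^ e 0 * EK 1 ^ e 1 * EK 2 ^ e 2 * EK 3 ^ e 3 * EK 4 ^ e 4 * EK 5 ^ e 5 * EK 6 ^ e 6 *
      EK 7 ^ e 7 * EK 8 ^ e 8 * (ck 0 ^ n 0 * ck 1 ^ n 1) := by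
  simp only [mono, Fin.prod_univ_succ, Fin.prod_univ_two]
  simp [mul_assoc]

theorem deg442 {m : K} (hm : m ∈ MM) (h : Phi m = lam 4 4 2 • m) :
    m = EK 3 * EK 8 ∨ m = EK 2 ^ 2 * ck 0 ^ 2 * ck 1 ^ 2 := by
  obtain ⟨e, n, rfl, h0, h1, h2⟩ := MM_deg hm h (by norm_num)
  obtain ⟨a0, a1, a2⟩ := deg_aux e n (u := 4) (v := 4) (by simpa using h0) (by simpa using h1) h2
  rw [mono_eq]
  rcases sol1 _ _ _ _ _ _ _ _ _ _ _ a0 a1 a2 with
    ⟨g0, g1, g2, g3, g4, g5, g6, g7, g8, g9, g10⟩ | ⟨g0, g1, g2, g3, g4, g5, g6, g7, g8, g9, g10⟩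
  · left; rw [g0, g1, g2, g3, g4, g5, g6, g7, g8, g9, g10]; ring
  · right; rw [g0, g1, g2, g3, g4, g5, g6, g7, g8, g9, g10]; ring

theorem deg352 {m : K} (hm : m ∈ MM) (h : Phi m = lam 3 5 2 • m) :
    m = EK 2 ^ 2 * ck 0 * ck 1 ^ 3 ∨ m = EK 2 ^ 2 * EK 5 ∨ m = EK 1 * EK 2 ^ 2 * EK 3 ∨
      m = EK 0 * EK 7 := by
  obtain ⟨e, n, rfl, h0, h1, h2⟩ := MM_deg hm h (by norm_num)
  obtain ⟨a0, a1, a2⟩ := deg_aux e n (u := 3) (v := 5) (by simpa using h0) (by simpa using h1) h2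
  rw [mono_eq]
  rcases sol2 _ _ _ _ _ _ _ _ _ _ _ a0 a1 a2 with
    ⟨g0, g1, g2, g3, g4, g5, g6, g7, g8, g9, g10⟩ | ⟨g0, g1, g2, g3, g4, g5, g6, g7, g8, g9, g10⟩ |
    ⟨g0, g1, g2, g3, g4, g5, g6, g7, g8, g9, g10⟩ | ⟨g0, g1, g2, g3, g4, g5, g6, g7, g8, g9, g10⟩
  · left; rw [g0, g1, g2, g3, g4, g5, g6, g7, g8, g9, g10]; ring
  · right; left; rw [g0, g1, g2, g3, g4, g5, g6, g7, g8, g9, g10]; ring
  · right; right; left; rw [g0, g1, g2, g3, g4, g5, g6, g7, g8, g9, g10]; ring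
  · right; right; right; rw [g0, g1, g2, g3, g4, g5, g6, g7, g8, g9, g10]; ring

theorem deg532 {m : K} (hm : m ∈ MM) (h : Phi m = lam 5 3 2 • m) :
    m = EK 2 ^ 2 * ck 0 ^ 3 * ck 1 ∨ m = EK 2 ^ 2 * EK 4 ∨ m = EK 0 * EK 2 ^ 2 * EK 3 ∨
      m = EK 1 * EK 6 := by
  obtain ⟨e, n, rfl, h0, h1, h2⟩ := MM_deg hm h (by norm_num)
  obtain ⟨a0, a1, a2⟩ := deg_aux e n (u := 5) (v := 3) (by simpa using h0) (by simpa using h1) h2
  rw [mono_eq]
  rcases sol2 (e 1) (e 0) (e 2) (e 3) (e 5) (e 4) (e 7) (e 6) (e 8) (n 1) (n 0)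
      (by omega) (by omega) (by omega) with
    ⟨g0, g1, g2, g3, g4, g5, g6, g7, g8, g9, g10⟩ | ⟨g0, g1, g2, g3, g4, g5, g6, g7, g8, g9, g10⟩ |
    ⟨g0, g1, g2, g3, g4, g5, g6, g7, g8, g9, g10⟩ | ⟨g0, g1, g2, g3, g4, g5, g6, g7, g8, g9, g10⟩
  · left; rw [g0, g1, g2, g3, g4, g5, g6, g7, g8, g9, g10]; ring
  · right; left; rw [g0, g1, g2, g3, g4, g5, g6, g7, g8, g9, g10]; ring
  · right; right; left; rw [g0, g1, g2, g3, g4, g5, g6, g7, g8, g9, g10]; ring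
  · right; right; right; rw [g0, g1, g2, g3, g4, g5, g6, g7, g8, g9, g10]; ring

end Pool.Agent.Y945.CB
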