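import Pool.Agent.Y945.CB.Defs

namespace Pool.Agent.Y945.CB

/-- coefficient-free seeds of rank three with two tropical weights -/
structure HS (F : Type) where
  X : Fin 3 → F
  B : Fin 3 → Fin 3 → ℤ
  w : Fin 2 → Fin 3 → ℤ

variable {F : Type} [Field F]

noncomputable def HS.mut (h : HS F) (k : Fin 3) : HS F where
  X := Function.update h.X k
    ((∏ i, h.X i ^ (h.B i k).toNat + ∏ i, h.X i ^ (-h.B i k).toNat) / h.X k)
  B := fun i j => if i = k ∨ j = k then -h.B i j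
    else h.B i j + (max (h.B i k) 0 * max (h.B k j) 0 - max (-h.B i k) 0 * max (-h.B k j) 0)
  w := fun a => Function.update (h.w a) k
    (max (∑ i, h.w a i * max (h.B i k) 0) (∑ i, h.w a i * max (-h.B i k) 0) - h.w a k)

/-- `h` has, at the three distinct positions `i j k`, the given entries. -/
structure At (h : HS F) (i j k : Fin 3) (x₁ x₂ x₃ : F) (w₁ w₂ w₃ : Fin 2 → ℤ)
    (b₁₂ b₂₁ b₁₃ b₃₁ b₂₃ b₃₂ : ℤ) : Prop where
  ij : i ≠ j
  ik : i ≠ k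
  jk : j ≠ k
  X1 : h.X i = x₁
  X2 : h.X j = x₂
  X3 : h.X k = x₃
  W1 : ∀ a, h.w a i = w₁ a
  W2 : ∀ a, h.w a j = w₂ a
  W3 : ∀ a, h.w a k = w₃ a
  B12 : h.B i j = b₁₂
  B21 : h.B j i = b₂₁
  B13 : h.B i k = b₁₃
  B31 : h.B k i = b₃₁
  B23 : h.B j k = b₂₃
  B32 : h.B k j = b₃₂
  D1 : h.B i i = 0
  D2 : h.B j j = 0
  D3 : h.B k k = 0

theorem univ3 : ∀ i j k : Fin 3, i ≠ j → i ≠ k → j ≠ k →
    (Finset.univ : Finset (Fin 3)) = {i, j, k} := by decide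

theorem prod3 {M : Type} [CommMonoid M] (f : Fin 3 → M) {i j k : Fin 3} (hij : i ≠ j)
    (hik : i ≠ k) (hjk : j ≠ k) : ∏ l, f l = f i * (f j * f k) := by
  rw [univ3 i j k hij hik hjk, Finset.prod_insert (by simp [hij, hik]),
    Finset.prod_insert (by simp [hjk]), Finset.prod_singleton]

theorem sum3 {M : Type} [AddCommMonoid M] (f : Fin 3 → M) {i j k : Fin 3} (hij : i ≠ j)
    (hik : i ≠ k) (hjk : j ≠ k) : ∑ l, f l = f i + (f j + f k) := by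
  rw [univ3 i j k hij hik hjk, Finset.sum_insert (by simp [hij, hik]),
    Finset.sum_insert (by simp [hjk]), Finset.sum_singleton]

theorem cases3 : ∀ i j k : Fin 3, i ≠ j → i ≠ k → j ≠ k → ∀ l : Fin 3, l = i ∨ l = j ∨ l = k := by
  decide

variable {h : HS F} {i j k : Fin 3} {x₁ x₂ x₃ : F} {w₁ w₂ w₃ : Fin 2 → ℤ}
    {b₁₂ b₂₁ b₁₃ b₃₁ b₂₃ b₃₂ : ℤ}

theorem At.swap (H : At h i j k x₁ x₂ x₃ w₁ w₂ w₃ b₁₂ b₂₁ b₁₃ b₃₁ b₂₃ b₃₂) :
    At h j i k x₂ x₁ x₃ w₂ w₁ w₃ b₂₁ b₁₂ b₂₃ b₃₂ b₁₃ b₃₁ where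
  ij := H.ij.symm
  ik := H.jk
  jk := H.ik
  X1 := H.X2
  X2 := H.X1
  X3 := H.X3
  W1 := H.W2
  W2 := H.W1
  W3 := H.W3
  B12 := H.B21
  B21 := H.B12
  B13 := H.B23
  B31 := H.B32
  B23 := H.B13
  B32 := H.B31
  D1 := H.D2
  D2 := H.D1
  D3 := H.D3

theorem At.rot (H : At h i j k x₁ x₂ x₃ w₁ w₂ w₃ b₁₂ b₂₁ b₁₃ b₃₁ b₂₃ b₃₂) :
    At h k i j x₃ x₁ x₂ w₃ w₁ w₂ b₃₁ b₁₃ b₃₂ b₂₃ b₁₂ b₂₁ where
  ij := H.ik.symm
  ik := H.jk.symm
  jk := H.ij
  X1 := H.X3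
  X2 := H.X1
  X3 := H.X2
  W1 := H.W3
  W2 := H.W1
  W3 := H.W2
  B12 := H.B31
  B21 := H.B13
  B13 := H.B32
  B31 := H.B23
  B23 := H.B12
  B32 := H.B21
  D1 := H.D3
  D2 := H.D1
  D3 := H.D2

/-- mutation at the first position -/
theorem At.mut1 (H : At h i j k x₁ x₂ x₃ w₁ w₂ w₃ b₁₂ b₂₁ b₁₃ b₃₁ b₂₃ b₃₂)
    (h12 : max b₂₁ 0 * max b₁₂ 0 - max (-b₂₁) 0 * max (-b₁₂) 0 = 0)
    (h13 : max b₃₁ 0 * max b₁₃ 0 - max (-b₃₁) 0 * max (-b₁₃) 0 = 0) :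
    At (h.mut i) i j k
      ((x₂ ^ b₂₁.toNat * x₃ ^ b₃₁.toNat + x₂ ^ (-b₂₁).toNat * x₃ ^ (-b₃₁).toNat) / x₁) x₂ x₃
      (fun a => max (w₂ a * max b₂₁ 0 + w₃ a * max b₃₁ 0)
        (w₂ a * max (-b₂₁) 0 + w₃ a * max (-b₃₁) 0) - w₁ a) w₂ w₃
      (-b₁₂) (-b₂₁) (-b₁₃) (-b₃₁)
      (b₂₃ + (max b₂₁ 0 * max b₁₃ 0 - max (-b₂₁) 0 * max (-b₁₃) 0))
      (b₃₂ + (max b₃₁ 0 * max b₁₂ 0 - max (-b₃₁) 0 * max (-b₁₂) 0)) where
  ij := H.ij
  ik := H.ik
  jk := H.jk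
  X1 := by
    simp only [HS.mut, Function.update_self]
    rw [prod3 _ H.ij H.ik H.jk, prod3 _ H.ij H.ik H.jk, H.D1, H.B21, H.B31, H.X1, H.X2, H.X3]
    simp
  X2 := by simp [HS.mut, Function.update_of_ne H.ij.symm, H.X2]
  X3 := by simp [HS.mut, Function.update_of_ne H.ik.symm, H.X3]
  W1 := by
    intro a
    simp only [HS.mut, Function.update_self]
    rw [sum3 _ H.ij H.ik H.jk, sum3 _ H.ij H.ik H.jk, H.D1, H.B21, H.B31, H.W1, H.W2, H.W3]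
    simp
  W2 := by intro a; simp [HS.mut, Function.update_of_ne H.ij.symm, H.W2]
  W3 := by intro a; simp [HS.mut, Function.update_of_ne H.ik.symm, H.W3]
  B12 := by simp [HS.mut, H.B12]
  B21 := by simp [HS.mut, H.B21]
  B13 := by simp [HS.mut, H.B13]
  B31 := by simp [HS.mut, H.B31]
  B23 := by simp [HS.mut, H.ij.symm, H.ik.symm, H.B23, H.B21, H.B13]
  B32 := by simp [HS.mut, H.ij.symm, H.ik.symm, H.B32, H.B31, H.B12]
  D1 := by simp [HS.mut, H.D1]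
  D2 := by
    simp only [HS.mut, H.ij.symm, or_self, if_false, H.D2, H.B21, H.B12, h12, add_zero]
  D3 := by
    simp only [HS.mut, H.ik.symm, or_self, if_false, H.D3, H.B31, H.B13, h13, add_zero]

theorem At.cast {x₁' x₂' x₃' : F} {w₁' w₂' w₃' : Fin 2 → ℤ}
    {b₁₂' b₂₁' b₁₃' b₃₁' b₂₃' b₃₂' : ℤ}
    (H : At h i j k x₁ x₂ x₃ w₁ w₂ w₃ b₁₂ b₂₁ b₁₃ b₃₁ b₂₃ b₃₂)
    (e1 : x₁ = x₁') (e2 : x₂ = x₂') (e3 : x₃ = x₃')
    (f1 : ∀ a, w₁ a = w₁' a) (f2 : ∀ a, w₂ a = w₂' a) (f3 : ∀ a, w₃ a = w₃' a)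
    (g12 : b₁₂ = b₁₂') (g21 : b₂₁ = b₂₁') (g13 : b₁₃ = b₁₃') (g31 : b₃₁ = b₃₁')
    (g23 : b₂₃ = b₂₃') (g32 : b₃₂ = b₃₂') :
    At h i j k x₁' x₂' x₃' w₁' w₂' w₃' b₁₂' b₂₁' b₁₃' b₃₁' b₂₃' b₃₂' := by
  have f1' := funext f1
  have f2' := funext f2
  have f3' := funext f3
  subst e1 e2 e3 f1' f2' f3' g12 g21 g13 g31 g23 g32
  exact H

@[ext] theorem HS.ext' {h h' : HS F} (h1 : h.X = h'.X) (h2 : h.B = h'.B) (h3 : h.w = h'.w) :
    h = h' := by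
  cases h; cases h'; simp_all

/-- mutation is an involution -/
theorem HS.mut_mut (h : HS F) (k : Fin 3) (hX : h.X k ≠ 0) (hX' : (h.mut k).X k ≠ 0)
    (hD : h.B k k = 0) : (h.mut k).mut k = h := by
  have hBk : ∀ i, (h.mut k).B i k = - h.B i k := by intro i; simp [HS.mut]
  have hN : ∀ f : ℤ → ℕ, f 0 = 0 → ∏ i, (h.mut k).X i ^ f (h.B i k) = ∏ i, h.X i ^ f (h.B i k) := by
    intro f hf
    refine Finset.prod_congr rfl fun i _ => ?_
    by_cases hi : i = k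
    · subst hi; simp [hD, hf]
    · simp [HS.mut, Function.update_of_ne hi]
  have hW : ∀ (a : Fin 2) (f : ℤ → ℤ), f 0 = 0 →
      ∑ i, (h.mut k).w a i * f (h.B i k) = ∑ i, h.w a i * f (h.B i k) := by
    intro a f hf
    refine Finset.sum_congr rfl fun i _ => ?_
    by_cases hi : i = k
    · subst hi; simp [hD, hf]
    · simp [HS.mut, Function.update_of_ne hi]
  ext1
  · funext i
    by_cases hi : i = k
    · subst hi
      have h1 : ((h.mut i).mut i).X i = ((∏ j, (h.mut i).X j ^ ((h.mut i).B j i).toNat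
        + ∏ j, (h.mut i).X j ^ (-(h.mut i).B j i).toNat) / (h.mut i).X i) := by
        rw [HS.mut]; simp
      rw [h1]
      simp only [hBk, neg_neg]
      rw [hN (fun z => (-z).toNat) (by simp), hN (fun z => z.toNat) (by simp)]
      have h2 : (h.mut i).X i = (∏ j, h.X j ^ (h.B j i).toNat + ∏ j, h.X j ^ (-h.B j i).toNat)
        / h.X i := by simp [HS.mut]
      have h3 : (∏ j, h.X j ^ (h.B j i).toNat + ∏ j, h.X j ^ (-h.B j i).toNat) ≠ 0 := by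
        intro h0; rw [h2, h0] at hX'; simp at hX'
      rw [h2, add_comm (∏ j, h.X j ^ (-h.B j i).toNat)]
      field_simp
    · have : ((h.mut k).mut k).X i = h.X i := by
        rw [HS.mut]; simp [Function.update_of_ne hi]; simp [HS.mut, Function.update_of_ne hi]
      exact this
  · funext i j
    by_cases hij : i = k ∨ j = k
    · have : ((h.mut k).mut k).B i j = - (h.mut k).B i j := by
        rw [HS.mut]; simp [hij]
      rw [this]
      have : (h.mut k).B i j = - h.B i j := by rw [HS.mut]; simp [hij]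
      rw [this, neg_neg]
    · have h1 : ((h.mut k).mut k).B i j = (h.mut k).B i j + (max ((h.mut k).B i k) 0 *
        max ((h.mut k).B k j) 0 - max (-(h.mut k).B i k) 0 * max (-(h.mut k).B k j) 0) := by
        rw [HS.mut]; simp [hij]
      have h2 : (h.mut k).B i j = h.B i j + (max (h.B i k) 0 * max (h.B k j) 0
        - max (-h.B i k) 0 * max (-h.B k j) 0) := by rw [HS.mut]; simp [hij]
      have h3 : (h.mut k).B k j = - h.B k j := by rw [HS.mut]; simp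
      rw [h1, hBk, h3, h2]; ring_nf
  · funext a i
    by_cases hi : i = k
    · subst hi
      have h1 : ((h.mut i).mut i).w a i = max (∑ j, (h.mut i).w a j * max ((h.mut i).B j i) 0)
        (∑ j, (h.mut i).w a j * max (-(h.mut i).B j i) 0) - (h.mut i).w a i := by
        rw [HS.mut]; simp
      have h2 : (h.mut i).w a i = max (∑ j, h.w a j * max (h.B j i) 0)
        (∑ j, h.w a j * max (-h.B j i) 0) - h.w a i := by
        rw [HS.mut]; simp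
      rw [h1]
      simp only [hBk, neg_neg]
      rw [hW a (fun z => max (-z) 0) (by simp), hW a (fun z => max z 0) (by simp), h2, max_comm]
      ring
    · rw [HS.mut]; simp [Function.update_of_ne hi]; simp [HS.mut, Function.update_of_ne hi]

end Pool.Agent.Y945.CB
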