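import Pool.Agent.Y945.CB.Pent

set_option linter.unusedSectionVars false
set_option linter.unusedSimpArgs false

namespace Pool.Agent.Y945.CB

variable {F : Type} [Field F]

/-- a cone of nonzero elements closed under the subtraction-free operations -/
structure PosCone (pos : F → Prop) : Prop where
  one : pos 1
  add : ∀ {a b}, pos a → pos b → pos (a + b)
  mul : ∀ {a b}, pos a → pos b → pos (a * b)
  inv : ∀ {a}, pos a → pos a⁻¹
  ne : ∀ {a}, pos a → a ≠ 0

variable {pos : F → Prop}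

theorem PosCone.div (hp : PosCone pos) {a b : F} (ha : pos a) (hb : pos b) : pos (a / b) := by
  rw [div_eq_mul_inv]; exact hp.mul ha (hp.inv hb)

theorem PosCone.pow (hp : PosCone pos) {a : F} (ha : pos a) (n : ℕ) : pos (a ^ n) := by
  induction n with
  | zero => simpa using hp.one
  | succ n ih => rw [pow_succ]; exact hp.mul ih ha

theorem PosCone.prod (hp : PosCone pos) {ι : Type} (s : Finset ι) (f : ι → F)
    (hf : ∀ i, pos (f i)) : pos (∏ i ∈ s, f i) := by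
  classical
  induction s using Finset.induction_on with
  | empty => simpa using hp.one
  | insert a s ha ih => rw [Finset.prod_insert ha]; exact hp.mul (hf a) ih

theorem PosCone.mut (hp : PosCone pos) (h : HS F) (hx : ∀ i, pos (h.X i)) (k i : Fin 3) :
    pos ((h.mut k).X i) := by
  by_cases hi : i = k
  · subst hi
    simp only [HS.mut, Function.update_self]
    exact hp.div (hp.add (hp.prod _ _ fun j => hp.pow (hx j) _)
      (hp.prod _ _ fun j => hp.pow (hx j) _)) (hx i)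
  · simp only [HS.mut, Function.update_of_ne hi]; exact hx i

/-- a large weight -/
def Big (w : Fin 2 → ℤ) : Prop := 0 ≤ w 0 ∧ 0 ≤ w 1 ∧ 9 ≤ w 0 + w 1

/-- element of the core set, or of large weight -/
def okv (C : Set (F × (Fin 2 → ℤ))) (x : F) (w : Fin 2 → ℤ) : Prop := (x, w) ∈ C ∨ Big w

/-- wild region: last mutated position is the third one -/
structure WildAt (C : Set (F × (Fin 2 → ℤ))) (h : HS F) (i j k : Fin 3) (x₁ x₂ x₃ : F)
    (w₁ w₂ w₃ : Fin 2 → ℤ) (A A' P P' Q Q' δ : ℤ) : Prop where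
  H : At h i j k x₁ x₂ x₃ w₁ w₂ w₃ (-(δ * A)) (δ * A') (δ * P) (-(δ * P')) (-(δ * Q)) (δ * Q')
  hδ : δ = 1 ∨ δ = -1
  p2 : 2 ≤ P
  p2' : 2 ≤ P'
  q2 : 2 ≤ Q
  q2' : 2 ≤ Q'
  pa : P ≤ A
  qa : Q ≤ A'
  qa' : Q' ≤ A
  pa' : P' ≤ A'
  w10 : ∀ a, 0 ≤ w₁ a
  w20 : ∀ a, 0 ≤ w₂ a
  w13 : ∀ a, w₁ a ≤ w₃ a
  w23 : ∀ a, w₂ a ≤ w₃ a
  o1 : okv C x₁ w₁
  o2 : okv C x₂ w₂
  o3 : okv C x₃ w₃

variable {C : Set (F × (Fin 2 → ℤ))} {h : HS F} {i j k : Fin 3} {x₁ x₂ x₃ : F}
    {w₁ w₂ w₃ : Fin 2 → ℤ} {A A' P P' Q Q' δ : ℤ}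

theorem WildAt.swap (W : WildAt C h i j k x₁ x₂ x₃ w₁ w₂ w₃ A A' P P' Q Q' δ) :
    WildAt C h j i k x₂ x₁ x₃ w₂ w₁ w₃ A' A Q Q' P P' (-δ) where
  H := W.H.swap.cast rfl rfl rfl (fun _ => rfl) (fun _ => rfl) (fun _ => rfl)
    (by ring) (by ring) (by ring) (by ring) (by ring) (by ring)
  hδ := by rcases W.hδ with h | h <;> simp [h]
  p2 := W.q2
  p2' := W.q2'
  q2 := W.p2
  q2' := W.p2'
  pa := W.qa
  qa := W.pa
  qa' := W.pa'
  pa' := W.qa'
  w10 := W.w20
  w20 := W.w10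
  w13 := W.w23
  w23 := W.w13
  o1 := W.o2
  o2 := W.o1
  o3 := W.o3

/-- the wild region is closed under mutation at a position different from the last one -/
theorem WildAt.step (W : WildAt C h i j k x₁ x₂ x₃ w₁ w₂ w₃ A A' P P' Q Q' δ)
    (hb : 9 ≤ (P' * w₃ 0 - w₁ 0) + (P' * w₃ 1 - w₁ 1)) :
    ∃ (x₀ : F) (w₀ : Fin 2 → ℤ), Big w₀ ∧
      WildAt C (h.mut i) j k i x₂ x₃ x₀ w₂ w₃ w₀ (A' * P - Q) (P' * A - Q') A' A P' P (-δ) := by
  have hA : 2 ≤ A := le_trans W.p2 W.pa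
  have hA' : 2 ≤ A' := le_trans W.p2' W.pa'
  have e1 : (max (δ * A') 0 * max (-(δ * A)) 0 - max (-(δ * A')) 0 * max (-(-(δ * A))) 0) = 0 := by
    rcases W.hδ with hδ | hδ <;> subst hδ
    · rw [max_eq_right (by omega : -(1 * A) ≤ 0), max_eq_right (by omega : -(1 * A') ≤ 0)]; ring
    · rw [max_eq_right (by omega : (-1 * A') ≤ 0), max_eq_right (by omega : -(-(-1 * A)) ≤ 0)]; ring
  have e2 : (max (-(δ * P')) 0 * max (δ * P) 0 - max (-(-(δ * P'))) 0 * max (-(δ * P)) 0) = 0 := by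
    have := W.p2; have := W.p2'
    rcases W.hδ with hδ | hδ <;> subst hδ
    · rw [max_eq_right (by omega : -(1 * P') ≤ 0), max_eq_right (by omega : -(1 * P) ≤ 0)]; ring
    · rw [max_eq_right (by omega : (-1 * P) ≤ 0), max_eq_right (by omega : -(-(-1 * P')) ≤ 0)]; ring
  have H1 := At.mut1 W.H e1 e2
  have hw : ∀ a, P' * w₃ a - w₁ a ≤ max (w₂ a * max (δ * A') 0 + w₃ a * max (-(δ * P')) 0)
        (w₂ a * max (-(δ * A')) 0 + w₃ a * max (-(-(δ * P'))) 0) - w₁ a := by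
    intro a
    have := W.p2'
    rcases W.hδ with hδ | hδ <;> subst hδ
    · have : w₂ a * max (-(1 * A')) 0 + w₃ a * max (-(-(1 * P'))) 0 = P' * w₃ a := by
        rw [max_eq_right (by omega : -(1 * A') ≤ 0), max_eq_left (by omega : 0 ≤ -(-(1 * P')))]; ring
      rw [this]
      have := le_max_right (w₂ a * max (1 * A') 0 + w₃ a * max (-(1 * P')) 0) (P' * w₃ a)
      omega
    · have : w₂ a * max (-1 * A') 0 + w₃ a * max (-(-1 * P')) 0 = P' * w₃ a := by
        rw [max_eq_right (by omega : -1 * A' ≤ 0), max_eq_left (by omega : 0 ≤ -(-1 * P'))]; ring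
      rw [this]
      have := le_max_left (P' * w₃ a) (w₂ a * max (-(-1 * A')) 0 + w₃ a * max (-(-(-1 * P'))) 0)
      omega
  have hw3 : ∀ a, w₃ a ≤ P' * w₃ a - w₁ a := by
    intro a
    have h1 := W.w13 a; have h2 := W.w10 a; have h3 := W.p2'
    nlinarith
  refine ⟨_, _, ?_, H1.rot.rot.cast rfl rfl rfl (fun _ => rfl) (fun _ => rfl) (fun _ => rfl)
    ?_ ?_ ?_ ?_ ?_ ?_, ?_, ?_, ?_, ?_, ?_, ?_, ?_, ?_, ?_, W.w20, ?_, ?_, ?_, W.o2, W.o3, ?_⟩
  · have h0 := hw 0; have h1 := hw 1; have h2 := hw3 0; have h3 := hw3 1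
    have h4 := W.w13 0; have h5 := W.w13 1; have h6 := W.w10 0; have h7 := W.w10 1
    refine ⟨?_, ?_, ?_⟩ <;> beta_reduce <;> omega
  · rcases W.hδ with hδ | hδ <;> subst hδ
    · have := W.p2; have := W.p2'
      rw [max_eq_left (by omega : 0 ≤ 1 * A'), max_eq_left (by omega : 0 ≤ 1 * P),
        max_eq_right (by omega : -(1 * A') ≤ 0)]; ring
    · have := W.p2; have := W.p2'
      rw [max_eq_right (by omega : -1 * A' ≤ 0), max_eq_left (by omega : 0 ≤ -(-1 * A')),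
        max_eq_left (by omega : 0 ≤ -(-1 * P))]; ring
  · rcases W.hδ with hδ | hδ <;> subst hδ
    · have := W.p2; have := W.p2'
      rw [max_eq_right (by omega : -(1 * P') ≤ 0), max_eq_left (by omega : 0 ≤ -(-(1 * P'))),
        max_eq_left (by omega : 0 ≤ -(-(1 * A)))]; ring
    · have := W.p2; have := W.p2'
      rw [max_eq_left (by omega : 0 ≤ -(-1 * P')), max_eq_left (by omega : 0 ≤ -(-1 * A)),
        max_eq_right (by omega : -(-(-1 * P')) ≤ 0)]; ring
  · ring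
  · ring
  · ring
  · ring
  · rcases W.hδ with hδ | hδ <;> simp [hδ]
  · exact hA'
  · exact hA
  · exact W.p2'
  · exact W.p2
  · have := W.qa; have := W.p2; nlinarith
  · have := W.qa'; have := W.p2'; nlinarith
  · have := W.qa; have := W.p2; nlinarith
  · have := W.qa'; have := W.p2'; nlinarith
  · intro a; have := W.w10 a; have := W.w13 a; omega
  · intro a; have h1 := hw a; have h2 := hw3 a; have h3 := W.w23 a; beta_reduce; omega
  · intro a; have h1 := hw a; have h2 := hw3 a; beta_reduce; omega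
  · right
    have h0 := hw 0; have h1 := hw 1; have h2 := hw3 0; have h3 := hw3 1
    have h4 := W.w13 0; have h5 := W.w13 1; have h6 := W.w10 0; have h7 := W.w10 1
    refine ⟨?_, ?_, ?_⟩ <;> beta_reduce <;> omega

end Pool.Agent.Y945.CB
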