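import Pool.Agent.Y945.CB.Inv

set_option linter.unusedSectionVars false
set_option linter.unusedSimpArgs false

namespace Pool.Agent.Y945.CB

variable {F : Type} [Field F] {pos : F → Prop} {C : Set (F × (Fin 2 → ℤ))}
  {D : Pent F} {h : HS F} {i j k : Fin 3}

/-- wild seed with last mutated position `k` -/
def WildS (C : Set (F × (Fin 2 → ℤ))) (h : HS F) (k : Fin 3) : Prop :=
  ∃ (i j : Fin 3) (x₁ x₂ x₃ : F) (w₁ w₂ w₃ : Fin 2 → ℤ) (A A' P P' Q Q' δ : ℤ),
    WildAt C h i j k x₁ x₂ x₃ w₁ w₂ w₃ A A' P P' Q Q' δ ∧ 9 ≤ w₃ 0 + w₃ 1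

theorem WildS.step {l : Fin 3} (W : WildS C h k) (hl : l ≠ k) : WildS C (h.mut l) l := by
  obtain ⟨i, j, x₁, x₂, x₃, w₁, w₂, w₃, A, A', P, P', Q, Q', δ, W, h9⟩ := W
  have key : ∀ {i j x₁ x₂ w₁ w₂ A A' P P' Q Q' δ},
      WildAt C h i j k x₁ x₂ x₃ w₁ w₂ w₃ A A' P P' Q Q' δ → WildS C (h.mut i) i := by
    intro i j x₁ x₂ w₁ w₂ A A' P P' Q Q' δ W
    have hb : 9 ≤ (P' * w₃ 0 - w₁ 0) + (P' * w₃ 1 - w₁ 1) := by
      have a1 := W.w10 0; have a2 := W.w10 1; have a3 := W.w13 0; have a4 := W.w13 1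
      have := W.p2'
      nlinarith
    obtain ⟨x₀, w₀, hB, W'⟩ := W.step hb
    exact ⟨_, _, _, _, _, _, _, _, _, _, _, _, _, _, _, W', hB.2.2⟩
  rcases cases3 i j k W.H.ij W.H.ik W.H.jk l with h | h | h
  · subst h; exact key W
  · subst h; exact key W.swap
  · exact absurd h hl

theorem WildS.ok (W : WildS C h k) (l : Fin 3) : okv C (h.X l) (fun a => h.w a l) := by
  obtain ⟨i, j, x₁, x₂, x₃, w₁, w₂, w₃, A, A', P, P', Q, Q', δ, W, h9⟩ := W
  rcases cases3 i j k W.H.ij W.H.ik W.H.jk l with h | h | h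
  · subst h; rw [W.H.X1, funext W.H.W1]; exact W.o1
  · subst h; rw [W.H.X2, funext W.H.W2]; exact W.o2
  · subst h; rw [W.H.X3, funext W.H.W3]; exact W.o3

theorem At.diag {x₁ x₂ x₃ : F} {w₁ w₂ w₃ : Fin 2 → ℤ}
    {b₁₂ b₂₁ b₁₃ b₃₁ b₂₃ b₃₂ : ℤ} (H : At h i j k x₁ x₂ x₃ w₁ w₂ w₃ b₁₂ b₂₁ b₁₃ b₃₁ b₂₃ b₃₂)
    (l : Fin 3) : h.B l l = 0 := by
  rcases cases3 i j k H.ij H.ik H.jk l with h | h | h
  · subst h; exact H.D1
  · subst h; exact H.D2
  · subst h; exact H.D3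

theorem WildS.diag (W : WildS C h k) (l : Fin 3) : h.B l l = 0 := by
  obtain ⟨i, j, x₁, x₂, x₃, w₁, w₂, w₃, A, A', P, P', Q, Q', δ, W, h9⟩ := W
  exact W.H.diag l

/-- good pentagon of the chain -/
structure Good (pos : F → Prop) (C : Set (F × (Fin 2 → ℤ))) (D : Pent F) : Prop where
  ok : D.Ok
  pu : pos D.u
  pv : pos D.v
  pS : pos D.S
  py : pos D.y
  pT : pos D.T
  pz : pos D.z
  i1 : ∀ a, D.wu a + D.wv a ≤ D.wz a
  i2 : 5 ≤ D.wz 0 + D.wz 1
  ou : okv C D.u D.wu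
  ov : okv C D.v D.wv
  oS : okv C D.S D.wS
  oz : okv C D.z D.wz

theorem Good.y2 (hG : Good pos C D) (a : Fin 2) : 2 * D.wz a ≤ D.wy a := by
  have := hG.i1 a; have := hG.ok.w3 a; omega

theorem Good.oy (hG : Good pos C D) : okv C D.y D.wy := by
  right
  have := hG.y2 0; have := hG.y2 1; have := hG.i2
  have := hG.ok.wz0 0; have := hG.ok.wz0 1
  refine ⟨?_, ?_, ?_⟩ <;> omega

theorem Good.oT (hG : Good pos C D) : okv C D.T D.wT := by
  right
  have := hG.y2 0; have := hG.y2 1; have := hG.i2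
  have := hG.ok.wz0 0; have := hG.ok.wz0 1
  have := hG.ok.wu0 0; have := hG.ok.wu0 1
  refine ⟨?_, ?_, ?_⟩ <;> simp only [Pent.wT] <;> omega

theorem next_ok (hp : PosCone pos) (ok : D.Ok) (pu : pos D.u) (py : pos D.y) (pT : pos D.T)
    (pz : pos D.z) (hw : ∀ a, 3 * D.wz a ≤ 5 * (D.wu a + D.wy a)) :
    D.next.Ok ∧ pos D.next.y ∧ pos D.next.T ∧ pos D.next.z := by
  have h1 : pos (1 + D.T ^ 2) := hp.add hp.one (hp.pow pT 2)
  have hz : pos ((1 + D.T ^ 2) / D.z) := hp.div h1 pz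
  have h2 : pos (D.u + ((1 + D.T ^ 2) / D.z) ^ 3) := hp.add pu (hp.pow hz 3)
  have h3 : pos (1 + D.y * ((1 + D.T ^ 2) / D.z) ^ 3) :=
    hp.add hp.one (hp.mul py (hp.pow hz 3))
  exact ⟨ok.next (hp.ne h1) (hp.ne h2) (hp.ne h3) hw, hp.div h2 pT, hp.div h3 pT, hz⟩

theorem Good.next (hp : PosCone pos) (hG : Good pos C D) : Good pos C D.next := by
  have hw : ∀ a, 3 * D.wz a ≤ 5 * (D.wu a + D.wy a) := by
    intro a
    have := hG.y2 a; have := hG.ok.wu0 a; have := hG.ok.wz0 a; omega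
  obtain ⟨ok, py, pT, pz⟩ := next_ok hp hG.ok hG.pu hG.py hG.pT hG.pz hw
  exact {
    ok := ok
    pu := hG.py
    pv := hG.pu
    pS := hG.pT
    py := py
    pT := pT
    pz := pz
    i1 := by
      intro a
      have := hG.y2 a; have := hG.ok.wu0 a; have := hG.ok.wz0 a
      simp only [Pent.next]; omega
    i2 := by
      have := hG.y2 0; have := hG.ok.wu0 0; have := hG.ok.wz0 0
      have := hG.y2 1; have := hG.ok.wu0 1; have := hG.ok.wz0 1
      have := hG.i2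
      simp only [Pent.next]; omega
    ou := hG.oy
    ov := hG.ou
    oS := by
      have : D.next.wS = D.wT := by funext a; simp [Pent.next, Pent.wS, Pent.wT, add_comm]
      rw [this]; exact hG.oT
    oz := by
      right
      have := hG.y2 0; have := hG.ok.wu0 0; have := hG.ok.wz0 0
      have := hG.y2 1; have := hG.ok.wu0 1; have := hG.ok.wz0 1
      have := hG.i2
      refine ⟨?_, ?_, ?_⟩ <;> simp only [Pent.next] <;> omega }

/-- the exit from a good pentagon is wild -/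
theorem Good.exit (hG : Good pos C D) (H : Sh5 D h i j k) : WildS C (h.mut k) k := by
  have H' := Sh5.mk hG.ok H
  have key : ∀ a, D.wy a + D.wz a ≤ max (2 * D.wy a) (2 * D.wv a) - D.wz a ∧
      D.wv a ≤ max (2 * D.wy a) (2 * D.wv a) - D.wz a := by
    intro a
    have := hG.y2 a; have := hG.i1 a; have := hG.ok.wu0 a; have := hG.ok.wz0 a
    have := hG.ok.wv0 a
    omega
  have hz := hG.ok.wz0
  have hB : Big (fun a => max (2 * D.wy a) (2 * D.wv a) - D.wz a) := by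
    have := key 0; have := key 1; have := hG.y2 0; have := hG.y2 1; have := hG.i2
    have := hz 0; have := hz 1
    refine ⟨?_, ?_, ?_⟩ <;> beta_reduce <;> omega
  refine ⟨i, j, _, _, _, _, _, _, 5, 5, 2, 3, 2, 3, D.e, ⟨H'.cast rfl rfl rfl (fun _ => rfl)
    (fun _ => rfl) (fun _ => rfl) (by ring) (by ring) (by ring) (by ring) (by ring) (by ring),
    hG.ok.e1, by norm_num, by norm_num, by norm_num, by norm_num, by norm_num, by norm_num,
    by norm_num, by norm_num, hG.ok.wy0, hG.ok.wv0, ?_, ?_, hG.oy, hG.ov, Or.inr hB⟩, hB.2.2⟩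
  · intro a; have := key a; have := hz a; beta_reduce; omega
  · intro a; exact (key a).2

/-- the core pentagon -/
structure Base (pos : F → Prop) (C : Set (F × (Fin 2 → ℤ))) (D : Pent F) : Prop where
  ok : D.Ok
  pu : pos D.u
  pv : pos D.v
  pS : pos D.S
  py : pos D.y
  pT : pos D.T
  pz : pos D.z
  wu : ∀ a, D.wu a = 1
  wz : ∀ a, D.wz a = 1
  wvy : ∀ a, (D.wv a = 0 ∧ D.wy a = 2) ∨ (D.wv a = 2 ∧ D.wy a = 0)
  sv : D.wv 0 + D.wv 1 = 2
  sy : D.wy 0 + D.wy 1 = 2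
  ou : okv C D.u D.wu
  ov : okv C D.v D.wv
  oS : okv C D.S D.wS
  oy : okv C D.y D.wy
  oT : okv C D.T D.wT
  oz : okv C D.z D.wz
  on : okv C D.next.z D.next.wz
  on' : okv C D.flip.next.z D.flip.next.wz
  oR : okv C ((D.v ^ 2 + D.y ^ 2) / D.z) (fun a => max (2 * D.wy a) (2 * D.wv a) - D.wz a)

theorem Base.flip (hB : Base pos C D) : Base pos C D.flip where
  ok := hB.ok.flip
  pu := hB.pu
  pv := hB.py
  pS := hB.pT
  py := hB.pv
  pT := hB.pS
  pz := hB.pz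
  wu := hB.wu
  wz := hB.wz
  wvy := by intro a; rcases hB.wvy a with h | h <;> simp only [Pent.flip] <;> omega
  sv := hB.sy
  sy := hB.sv
  ou := hB.ou
  ov := hB.oy
  oS := hB.oT
  oy := hB.ov
  oT := hB.oS
  oz := hB.oz
  on := hB.on'
  on' := by rw [Pent.flip_flip]; exact hB.on
  oR := by
    have h := hB.oR
    simp only [Pent.flip]
    rw [add_comm]
    have : (fun a => max (2 * D.wv a) (2 * D.wy a) - D.wz a)
      = (fun a => max (2 * D.wy a) (2 * D.wv a) - D.wz a) := by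
      funext a; rw [max_comm]
    rw [this]; exact h

theorem Base.good (hp : PosCone pos) (hB : Base pos C D) : Good pos C D.next := by
  have hw : ∀ a, 3 * D.wz a ≤ 5 * (D.wu a + D.wy a) := by
    intro a
    have := hB.wu a; have := hB.wz a; have := hB.ok.wy0 a; omega
  obtain ⟨ok, py, pT, pz⟩ := next_ok hp hB.ok hB.pu hB.py hB.pT hB.pz hw
  exact {
    ok := ok
    pu := hB.py
    pv := hB.pu
    pS := hB.pT
    py := py
    pT := pT
    pz := pz
    i1 := by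
      intro a
      have := hB.wu a; have := hB.wz a; have := hB.ok.wy0 a
      simp only [Pent.next]; omega
    i2 := by
      have := hB.wu 0; have := hB.wz 0
      have := hB.wu 1; have := hB.wz 1
      have := hB.sy
      simp only [Pent.next]; omega
    ou := hB.oy
    ov := hB.ou
    oS := by
      have : D.next.wS = D.wT := by funext a; simp [Pent.next, Pent.wS, Pent.wT, add_comm]
      rw [this]; exact hB.oT
    oz := hB.on }

/-- mutations of the exit of the core pentagon are wild -/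
theorem Base.exit (hB : Base pos C D) (H : Sh5 D h i j k) :
    WildS C ((h.mut k).mut i) i ∧ WildS C ((h.mut k).mut j) j := by
  have H' := Sh5.mk hB.ok H
  have hw3 : ∀ a, max (2 * D.wy a) (2 * D.wv a) - D.wz a = 3 := by
    intro a
    have := hB.wvy a; have := hB.wz a; omega
  have W : WildAt C (h.mut k) i j k D.y D.v ((D.v ^ 2 + D.y ^ 2) / D.z) D.wy D.wv
      (fun a => max (2 * D.wy a) (2 * D.wv a) - D.wz a) 5 5 2 3 2 3 D.e := by
    refine ⟨H'.cast rfl rfl rfl (fun _ => rfl)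
      (fun _ => rfl) (fun _ => rfl) (by ring) (by ring) (by ring) (by ring) (by ring) (by ring),
      hB.ok.e1, by norm_num, by norm_num, by norm_num, by norm_num, by norm_num, by norm_num,
      by norm_num, by norm_num, hB.ok.wy0, hB.ok.wv0, ?_, ?_, hB.oy, hB.ov, hB.oR⟩
    · intro a; have := hw3 a; have := hB.wvy a; beta_reduce; omega
    · intro a; have := hw3 a; have := hB.wvy a; beta_reduce; omega
  have a0 := hw3 0; have a1 := hw3 1; have b0 := hB.sv; have b1 := hB.sy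
  constructor
  · obtain ⟨x₀, w₀, hBig, W'⟩ := W.step (by beta_reduce; omega)
    exact ⟨_, _, _, _, _, _, _, _, _, _, _, _, _, _, _, W', hBig.2.2⟩
  · obtain ⟨x₀, w₀, hBig, W'⟩ := W.swap.step (by beta_reduce; omega)
    exact ⟨_, _, _, _, _, _, _, _, _, _, _, _, _, _, _, W', hBig.2.2⟩

/-- pentagons of the two chains -/
inductive Chain (D₀ : Pent F) : Pent F → Prop
  | base1 : Chain D₀ D₀.next
  | base2 : Chain D₀ D₀.flip.next
  | step (D : Pent F) : Chain D₀ D → Chain D₀ D.next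

def InPent (D : Pent F) (h : HS F) : Prop :=
  ∃ i j k, Sh1 D h i j k ∨ Sh2 D h i j k ∨ Sh3 D h i j k ∨ Sh4 D h i j k ∨ Sh5 D h i j k

def TC (pos : F → Prop) (D₀ : Pent F) (h : HS F) : Prop :=
  ∃ h0 i j k, (∀ l, pos (h0.X l)) ∧ Sh5 D₀ h0 i j k ∧ h = h0.mut k

inductive WF (pos : F → Prop) (C : Set (F × (Fin 2 → ℤ))) (D₀ : Pent F) : HS F → Fin 3 → Prop
  | base (h : HS F) (k : Fin 3) : (∀ l, pos (h.X l)) → (∀ l, h.B l l = 0) →
      (TC pos D₀ h ∨ ∃ D, Chain D₀ D ∧ InPent D h) → WildS C (h.mut k) k → WF pos C D₀ (h.mut k) k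
  | step (h : HS F) (k l : Fin 3) : l ≠ k → (∀ l, pos (h.X l)) → WF pos C D₀ h k →
      WF pos C D₀ (h.mut l) l

def Inv (pos : F → Prop) (C : Set (F × (Fin 2 → ℤ))) (D₀ : Pent F) (h : HS F) : Prop :=
  (∀ l, pos (h.X l)) ∧ (InPent D₀ h ∨ TC pos D₀ h ∨ (∃ D, Chain D₀ D ∧ InPent D h) ∨
    ∃ k, WF pos C D₀ h k)

variable {D₀ : Pent F}

theorem Chain.good (hp : PosCone pos) (hB : Base pos C D₀) (hc : Chain D₀ D) : Good pos C D := by
  induction hc with
  | base1 => exact hB.good hp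
  | base2 => exact hB.flip.good hp
  | step D _ ih => exact ih.next hp

theorem WF.wild (hW : WF pos C D₀ h k) : WildS C h k := by
  induction hW with
  | base h k _ _ _ hW => exact hW
  | step h k l hl _ _ ih => exact ih.step hl

theorem InPent.diag (H : InPent D h) (l : Fin 3) : h.B l l = 0 := by
  obtain ⟨i, j, k, H | H | H | H | H⟩ := H
  all_goals exact At.diag H l

theorem InPent.flip (H : InPent D h) : InPent D.flip h := by
  obtain ⟨i, j, k, H | H | H | H | H⟩ := H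
  · exact ⟨i, j, k, .inr (.inr (.inr (.inl H.flip)))⟩
  · exact ⟨i, j, k, .inr (.inr (.inl H.flip))⟩
  · exact ⟨i, j, k, .inr (.inl H.flip)⟩
  · exact ⟨i, j, k, .inl H.flip⟩
  · exact ⟨j, i, k, .inr (.inr (.inr (.inr H.flip)))⟩

/-- the moves from a seed in a pentagon -/
theorem InPent.move (hD : D.Ok) (H : InPent D h) (l : Fin 3) :
    InPent D (h.mut l) ∨ InPent D.next (h.mut l) ∨
    (∃ i j, Sh5 D h i j l) ∨ (∃ i j, Sh1 D h i j l) ∨ (∃ i j, Sh2 D h i j l) := by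
  obtain ⟨i, j, k, H | H | H | H | H⟩ := H
  · rcases cases3 i j k (At.ij H) (At.ik H) (At.jk H) l with h | h | h <;> subst h
    · exact .inl ⟨_, _, _, .inr (.inl (H.mi hD))⟩
    · exact .inl ⟨_, _, _, .inr (.inr (.inr (.inr (H.mj hD))))⟩
    · exact .inr (.inr (.inr (.inl ⟨_, _, H⟩)))
  · rcases cases3 i j k (At.ij H) (At.ik H) (At.jk H) l with h | h | h <;> subst h
    · exact .inl ⟨_, _, _, .inl (H.mi hD)⟩
    · exact .inl ⟨_, _, _, .inr (.inr (.inl (H.mj hD)))⟩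
    · exact .inr (.inr (.inr (.inr ⟨_, _, H⟩)))
  · rcases cases3 i j k (At.ij H) (At.ik H) (At.jk H) l with h | h | h <;> subst h
    · exact .inl ⟨_, _, _, .inr (.inr (.inr (.inl (H.mi hD))))⟩
    · exact .inl ⟨_, _, _, .inr (.inl (H.mj hD))⟩
    · exact .inr (.inl ⟨_, _, _, .inl (H.mk hD)⟩)
  · rcases cases3 i j k (At.ij H) (At.ik H) (At.jk H) l with h | h | h <;> subst h
    · exact .inl ⟨_, _, _, .inr (.inr (.inl (H.mi hD)))⟩
    · exact .inl ⟨_, _, _, .inr (.inr (.inr (.inr (H.mj hD))))⟩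
    · exact .inr (.inl ⟨_, _, _, .inr (.inl (H.mk hD))⟩)
  · rcases cases3 i j k (At.ij H) (At.ik H) (At.jk H) l with h | h | h <;> subst h
    · exact .inl ⟨_, _, _, .inl (H.mi hD)⟩
    · exact .inl ⟨_, _, _, .inr (.inr (.inr (.inl (H.mj hD))))⟩
    · exact .inr (.inr (.inl ⟨_, _, H⟩))

/-- the back move from the next pentagon -/
theorem back (hp : PosCone pos) (hD : D.Ok) (pT : pos D.T) (l : Fin 3)
    (H : (∃ i j, Sh1 D.next h i j l) ∨ (∃ i j, Sh2 D.next h i j l)) : InPent D (h.mut l) := by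
  have h1 : 1 + D.T ^ 2 ≠ 0 := hp.ne (hp.add hp.one (hp.pow pT 2))
  rcases H with ⟨i, j, H⟩ | ⟨i, j, H⟩
  · exact ⟨_, _, _, .inr (.inr (.inl (Sh1.mk hD h1 H)))⟩
  · exact ⟨_, _, _, .inr (.inr (.inr (.inl (Sh2.mk hD h1 H))))⟩

theorem Inv.mut (hp : PosCone pos) (hB : Base pos C D₀) (H : Inv pos C D₀ h) (l : Fin 3) :
    Inv pos C D₀ (h.mut l) := by
  obtain ⟨hx, H⟩ := H
  refine ⟨fun i => hp.mut h hx l i, ?_⟩
  rcases H with H | H | ⟨D, hc, H⟩ | ⟨k, H⟩
  · rcases H.move hB.ok l with H' | H' | ⟨i, j, H'⟩ | H'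
    · exact .inl H'
    · exact .inr (.inr (.inl ⟨_, .base1, H'⟩))
    · exact .inr (.inl ⟨h, i, j, l, hx, H', rfl⟩)
    · refine .inr (.inr (.inl ⟨_, .base2, ?_⟩))
      rcases H' with ⟨i, j, H'⟩ | ⟨i, j, H'⟩
      · exact ⟨_, _, _, .inr (.inl (H'.flip.mk hB.flip.ok))⟩
      · exact ⟨_, _, _, .inl (H'.flip.mk hB.flip.ok)⟩
  · have hT := H
    obtain ⟨h0, i, j, k, h0x, H', rfl⟩ := H
    have hd : ∀ l, (h0.mut k).B l l = 0 := fun l => (Sh5.mk hB.ok H').diag l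
    obtain ⟨W1, W2⟩ := hB.exit H'
    rcases cases3 i j k (At.ij H') (At.ik H') (At.jk H') l with h | h | h <;> subst h
    · exact .inr (.inr (.inr ⟨_, .base _ _ hx hd (.inl hT) W1⟩))
    · exact .inr (.inr (.inr ⟨_, .base _ _ hx hd (.inl hT) W2⟩))
    · rw [HS.mut_mut h0 l (hp.ne (h0x l)) (hp.ne (hx l)) (At.diag H' l)]
      exact .inl ⟨_, _, _, .inr (.inr (.inr (.inr H')))⟩
  · have hG := hc.good hp hB
    rcases H.move hG.ok l with H' | H' | ⟨i, j, H'⟩ | H'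
    · exact .inr (.inr (.inl ⟨_, hc, H'⟩))
    · exact .inr (.inr (.inl ⟨_, hc.step, H'⟩))
    · exact .inr (.inr (.inr ⟨_, .base _ _ hx H.diag (.inr ⟨_, hc, H⟩) (hG.exit H')⟩))
    · cases hc with
      | base1 => exact .inl (back hp hB.ok hB.pT l H')
      | base2 =>
        have := (back hp hB.flip.ok hB.flip.pT l H').flip
        rw [Pent.flip_flip] at this
        exact .inl this
      | step D hc =>
        have hG' := hc.good hp hB
        exact .inr (.inr (.inl ⟨_, hc, back hp hG'.ok hG'.pT l H'⟩))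
  · by_cases hl : l = k
    · subst hl
      cases H with
      | base h k hx' hd H W =>
        rw [HS.mut_mut h l (hp.ne (hx' l)) (hp.ne (hx l)) (hd l)]
        rcases H with H | H
        · exact .inr (.inl H)
        · exact .inr (.inr (.inl H))
      | step h k l' hl hx' H =>
        rw [HS.mut_mut h l (hp.ne (hx' l)) (hp.ne (hx l)) (H.wild.diag l)]
        exact .inr (.inr (.inr ⟨_, H⟩))
    · exact .inr (.inr (.inr ⟨_, .step _ _ _ hl hx H⟩))

theorem At.okv {x₁ x₂ x₃ : F} {w₁ w₂ w₃ : Fin 2 → ℤ}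
    {b₁₂ b₂₁ b₁₃ b₃₁ b₂₃ b₃₂ : ℤ} (H : At h i j k x₁ x₂ x₃ w₁ w₂ w₃ b₁₂ b₂₁ b₁₃ b₃₁ b₂₃ b₃₂)
    (h1 : CB.okv C x₁ w₁) (h2 : CB.okv C x₂ w₂) (h3 : CB.okv C x₃ w₃)
    (l : Fin 3) : CB.okv C (h.X l) (fun a => h.w a l) := by
  rcases cases3 i j k H.ij H.ik H.jk l with h | h | h
  · subst h; rw [H.X1, funext H.W1]; exact h1
  · subst h; rw [H.X2, funext H.W2]; exact h2
  · subst h; rw [H.X3, funext H.W3]; exact h3

theorem InPent.okv (H : InPent D h) (ou : CB.okv C D.u D.wu) (ov : CB.okv C D.v D.wv)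
    (oS : CB.okv C D.S D.wS) (oy : CB.okv C D.y D.wy) (oT : CB.okv C D.T D.wT)
    (oz : CB.okv C D.z D.wz) (l : Fin 3) : CB.okv C (h.X l) (fun a => h.w a l) := by
  obtain ⟨i, j, k, H | H | H | H | H⟩ := H
  · exact At.okv H ov oS oz l
  · exact At.okv H ou oS oz l
  · exact At.okv H ou oT oz l
  · exact At.okv H oy oT oz l
  · exact At.okv H oy ov oz l

theorem Inv.okv (hp : PosCone pos) (hB : Base pos C D₀) (H : Inv pos C D₀ h) (l : Fin 3) :
    CB.okv C (h.X l) (fun a => h.w a l) := by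
  obtain ⟨hx, H | H | ⟨D, hc, H⟩ | ⟨k, H⟩⟩ := H
  · exact H.okv hB.ou hB.ov hB.oS hB.oy hB.oT hB.oz l
  · obtain ⟨h0, i, j, k, h0x, H', rfl⟩ := H
    exact (Sh5.mk hB.ok H').okv hB.oy hB.ov hB.oR l
  · have hG := hc.good hp hB
    exact H.okv hG.ou hG.ov hG.oS hG.oy hG.oT hG.oz l
  · exact H.wild.ok l

end Pool.Agent.Y945.CB
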