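import Pool.Agent.Y945.CB.HS

set_option linter.unusedSectionVars false
set_option linter.unusedSimpArgs false

namespace Pool.Agent.Y945.CB

/-- data of a pentagon of clusters around `z` -/
structure Pent (F : Type) where
  u : F
  v : F
  S : F
  y : F
  T : F
  z : F
  wu : Fin 2 → ℤ
  wv : Fin 2 → ℤ
  wy : Fin 2 → ℤ
  wz : Fin 2 → ℤ
  e : ℤ

variable {F : Type} [Field F]

structure Pent.Ok (D : Pent F) : Prop where
  uv : D.u * D.v = 1 + D.S
  uy : D.u * D.y = 1 + D.T
  Sy : D.S * D.y = D.v + D.z ^ 3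
  Tv : D.T * D.v = D.y + D.z ^ 3
  ST : D.S * D.T = 1 + D.u * D.z ^ 3
  nu : D.u ≠ 0
  nv : D.v ≠ 0
  nS : D.S ≠ 0
  ny : D.y ≠ 0
  nT : D.T ≠ 0
  nz : D.z ≠ 0
  e1 : D.e = 1 ∨ D.e = -1
  wu0 : ∀ a, 0 ≤ D.wu a
  wv0 : ∀ a, 0 ≤ D.wv a
  wy0 : ∀ a, 0 ≤ D.wy a
  w3 : ∀ a, 3 * D.wz a = D.wu a + D.wv a + D.wy a

def Pent.wS (D : Pent F) : Fin 2 → ℤ := fun a => D.wu a + D.wv a
def Pent.wT (D : Pent F) : Fin 2 → ℤ := fun a => D.wu a + D.wy a

def Sh1 (D : Pent F) (h : HS F) (i j k : Fin 3) : Prop :=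
  At h i j k D.v D.S D.z D.wv D.wS D.wz D.e (-D.e) 0 0 (2 * D.e) (-3 * D.e)
def Sh2 (D : Pent F) (h : HS F) (i j k : Fin 3) : Prop :=
  At h i j k D.u D.S D.z D.wu D.wS D.wz (-D.e) D.e 0 0 (2 * D.e) (-3 * D.e)
def Sh3 (D : Pent F) (h : HS F) (i j k : Fin 3) : Prop :=
  At h i j k D.u D.T D.z D.wu D.wT D.wz D.e (-D.e) 0 0 (-2 * D.e) (3 * D.e)
def Sh4 (D : Pent F) (h : HS F) (i j k : Fin 3) : Prop :=
  At h i j k D.y D.T D.z D.wy D.wT D.wz (-D.e) D.e 0 0 (-2 * D.e) (3 * D.e)
def Sh5 (D : Pent F) (h : HS F) (i j k : Fin 3) : Prop :=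
  At h i j k D.y D.v D.z D.wy D.wv D.wz D.e (-D.e) (-2 * D.e) (3 * D.e) (2 * D.e) (-3 * D.e)

variable {D : Pent F} {h : HS F} {i j k : Fin 3}

theorem Pent.Ok.wz0 (hD : D.Ok) (a : Fin 2) : 0 ≤ D.wz a := by
  have := hD.w3 a; have := hD.wu0 a; have := hD.wv0 a; have := hD.wy0 a; omega

theorem Sh1.mi (hD : D.Ok) (H : Sh1 D h i j k) : Sh2 D (h.mut i) i j k := by
  have hw := fun a => hD.wu0 a
  have hv := fun a => hD.wv0 a
  rcases hD.e1 with he | he <;> unfold Sh1 at H <;> unfold Sh2 <;> rw [he] at H ⊢ <;>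
  · refine (At.mut1 H (by norm_num) (by norm_num)).cast ?_ rfl rfl ?_ (fun _ => rfl) (fun _ => rfl)
      (by norm_num) (by norm_num) (by norm_num) (by norm_num) (by norm_num) (by norm_num)
    · rw [div_eq_iff hD.nv, hD.uv]; simp [add_comm]
    · intro a
      have := hw a; have := hv a
      simp [Pent.wS]
      omega

theorem Sh2.mi (hD : D.Ok) (H : Sh2 D h i j k) : Sh1 D (h.mut i) i j k := by
  have hw := fun a => hD.wu0 a
  have hv := fun a => hD.wv0 a
  rcases hD.e1 with he | he <;> unfold Sh2 at H <;> unfold Sh1 <;> rw [he] at H ⊢ <;>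
  · refine (At.mut1 H (by norm_num) (by norm_num)).cast ?_ rfl rfl ?_ (fun _ => rfl) (fun _ => rfl)
      (by norm_num) (by norm_num) (by norm_num) (by norm_num) (by norm_num) (by norm_num)
    · rw [div_eq_iff hD.nu, mul_comm D.v, hD.uv]; simp [add_comm]
    · intro a
      have := hw a; have := hv a
      simp [Pent.wS]
      omega

theorem Sh1.mj (hD : D.Ok) (H : Sh1 D h i j k) : Sh5 D (h.mut j) j i k := by
  have hw := fun a => hD.wu0 a
  have hv := fun a => hD.wv0 a
  have hy := fun a => hD.wy0 a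
  have hz := fun a => hD.w3 a
  rcases hD.e1 with he | he <;> unfold Sh1 at H <;> unfold Sh5 <;> rw [he] at H ⊢ <;>
  · refine (At.mut1 H.swap (by norm_num) (by norm_num)).cast ?_ rfl rfl ?_ (fun _ => rfl) (fun _ => rfl)
      (by norm_num) (by norm_num) (by norm_num) (by norm_num) (by norm_num) (by norm_num)
    · rw [div_eq_iff hD.nS, mul_comm D.y, hD.Sy]; simp [add_comm]
    · intro a
      have := hw a; have := hv a; have := hy a; have := hz a
      simp [Pent.wS, Pent.wT]
      omega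

theorem Sh2.mj (hD : D.Ok) (H : Sh2 D h i j k) : Sh3 D (h.mut j) i j k := by
  have hw := fun a => hD.wu0 a
  have hv := fun a => hD.wv0 a
  have hy := fun a => hD.wy0 a
  have hz := fun a => hD.w3 a
  rcases hD.e1 with he | he <;> unfold Sh2 at H <;> unfold Sh3 <;> rw [he] at H ⊢ <;>
  · refine (At.mut1 H.swap (by norm_num) (by norm_num)).swap.cast rfl ?_ rfl (fun _ => rfl) ?_ (fun _ => rfl)
      (by norm_num) (by norm_num) (by norm_num) (by norm_num) (by norm_num) (by norm_num)
    · rw [div_eq_iff hD.nS, mul_comm D.T, hD.ST]; simp [add_comm]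
    · intro a
      have := hw a; have := hv a; have := hy a; have := hz a
      simp [Pent.wS, Pent.wT]
      omega

theorem Sh3.mi (hD : D.Ok) (H : Sh3 D h i j k) : Sh4 D (h.mut i) i j k := by
  have hw := fun a => hD.wu0 a
  have hv := fun a => hD.wv0 a
  have hy := fun a => hD.wy0 a
  have hz := fun a => hD.w3 a
  rcases hD.e1 with he | he <;> unfold Sh3 at H <;> unfold Sh4 <;> rw [he] at H ⊢ <;>
  · refine (At.mut1 H (by norm_num) (by norm_num)).cast ?_ rfl rfl ?_ (fun _ => rfl) (fun _ => rfl)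
      (by norm_num) (by norm_num) (by norm_num) (by norm_num) (by norm_num) (by norm_num)
    · rw [div_eq_iff hD.nu, mul_comm D.y, hD.uy]; simp [add_comm]
    · intro a
      have := hw a; have := hv a; have := hy a; have := hz a
      simp [Pent.wS, Pent.wT]
      omega

theorem Sh3.mj (hD : D.Ok) (H : Sh3 D h i j k) : Sh2 D (h.mut j) i j k := by
  have hw := fun a => hD.wu0 a
  have hv := fun a => hD.wv0 a
  have hy := fun a => hD.wy0 a
  have hz := fun a => hD.w3 a
  rcases hD.e1 with he | he <;> unfold Sh3 at H <;> unfold Sh2 <;> rw [he] at H ⊢ <;>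
  · refine (At.mut1 H.swap (by norm_num) (by norm_num)).swap.cast rfl ?_ rfl (fun _ => rfl) ?_ (fun _ => rfl)
      (by norm_num) (by norm_num) (by norm_num) (by norm_num) (by norm_num) (by norm_num)
    · rw [div_eq_iff hD.nT, hD.ST]; simp [add_comm]
    · intro a
      have := hw a; have := hv a; have := hy a; have := hz a
      simp [Pent.wS, Pent.wT]
      omega

theorem Sh4.mi (hD : D.Ok) (H : Sh4 D h i j k) : Sh3 D (h.mut i) i j k := by
  have hw := fun a => hD.wu0 a
  have hv := fun a => hD.wv0 a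
  have hy := fun a => hD.wy0 a
  have hz := fun a => hD.w3 a
  rcases hD.e1 with he | he <;> unfold Sh4 at H <;> unfold Sh3 <;> rw [he] at H ⊢ <;>
  · refine (At.mut1 H (by norm_num) (by norm_num)).cast ?_ rfl rfl ?_ (fun _ => rfl) (fun _ => rfl)
      (by norm_num) (by norm_num) (by norm_num) (by norm_num) (by norm_num) (by norm_num)
    · rw [div_eq_iff hD.ny, hD.uy]; simp [add_comm]
    · intro a
      have := hw a; have := hv a; have := hy a; have := hz a
      simp [Pent.wS, Pent.wT]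
      omega

theorem Sh4.mj (hD : D.Ok) (H : Sh4 D h i j k) : Sh5 D (h.mut j) i j k := by
  have hw := fun a => hD.wu0 a
  have hv := fun a => hD.wv0 a
  have hy := fun a => hD.wy0 a
  have hz := fun a => hD.w3 a
  rcases hD.e1 with he | he <;> unfold Sh4 at H <;> unfold Sh5 <;> rw [he] at H ⊢ <;>
  · refine (At.mut1 H.swap (by norm_num) (by norm_num)).swap.cast rfl ?_ rfl (fun _ => rfl) ?_ (fun _ => rfl)
      (by norm_num) (by norm_num) (by norm_num) (by norm_num) (by norm_num) (by norm_num)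
    · rw [div_eq_iff hD.nT, mul_comm D.v, hD.Tv]; simp [add_comm]
    · intro a
      have := hw a; have := hv a; have := hy a; have := hz a
      simp [Pent.wS, Pent.wT]
      omega

theorem Sh5.mi (hD : D.Ok) (H : Sh5 D h i j k) : Sh1 D (h.mut i) j i k := by
  have hw := fun a => hD.wu0 a
  have hv := fun a => hD.wv0 a
  have hy := fun a => hD.wy0 a
  have hz := fun a => hD.w3 a
  rcases hD.e1 with he | he <;> unfold Sh5 at H <;> unfold Sh1 <;> rw [he] at H ⊢ <;>
  · refine (At.mut1 H (by norm_num) (by norm_num)).swap.cast rfl ?_ rfl (fun _ => rfl) ?_ (fun _ => rfl)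
      (by norm_num) (by norm_num) (by norm_num) (by norm_num) (by norm_num) (by norm_num)
    · rw [div_eq_iff hD.ny, hD.Sy]; simp [add_comm]
    · intro a
      have := hw a; have := hv a; have := hy a; have := hz a
      simp [Pent.wS, Pent.wT]
      omega

theorem Sh5.mj (hD : D.Ok) (H : Sh5 D h i j k) : Sh4 D (h.mut j) i j k := by
  have hw := fun a => hD.wu0 a
  have hv := fun a => hD.wv0 a
  have hy := fun a => hD.wy0 a
  have hz := fun a => hD.w3 a
  rcases hD.e1 with he | he <;> unfold Sh5 at H <;> unfold Sh4 <;> rw [he] at H ⊢ <;>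
  · refine (At.mut1 H.swap (by norm_num) (by norm_num)).swap.cast rfl ?_ rfl (fun _ => rfl) ?_ (fun _ => rfl)
      (by norm_num) (by norm_num) (by norm_num) (by norm_num) (by norm_num) (by norm_num)
    · rw [div_eq_iff hD.nv, hD.Tv]; simp [add_comm]
    · intro a
      have := hw a; have := hv a; have := hy a; have := hz a
      simp [Pent.wS, Pent.wT]
      omega

/-- reflection of a pentagon -/
def Pent.flip (D : Pent F) : Pent F where
  u := D.u
  v := D.y
  S := D.T
  y := D.v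
  T := D.S
  z := D.z
  wu := D.wu
  wv := D.wy
  wy := D.wv
  wz := D.wz
  e := -D.e

theorem Pent.Ok.flip (hD : D.Ok) : D.flip.Ok where
  uv := hD.uy
  uy := hD.uv
  Sy := hD.Tv
  Tv := hD.Sy
  ST := by simpa [Pent.flip, mul_comm] using hD.ST
  nu := hD.nu
  nv := hD.ny
  nS := hD.nT
  ny := hD.nv
  nT := hD.nS
  nz := hD.nz
  e1 := by rcases hD.e1 with he | he <;> simp [Pent.flip, he]
  wu0 := hD.wu0
  wv0 := hD.wy0
  wy0 := hD.wv0
  w3 := by intro a; have := hD.w3 a; simp [Pent.flip]; omega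

theorem Pent.flip_flip (D : Pent F) : D.flip.flip = D := by
  cases D; simp [Pent.flip]

theorem Sh1.flip (H : Sh1 D h i j k) : Sh4 D.flip h i j k :=
  At.cast H rfl rfl rfl (fun _ => rfl) (fun _ => rfl) (fun _ => rfl)
    (by simp [Pent.flip]) rfl rfl rfl (by simp [Pent.flip]) (by simp [Pent.flip])

theorem Sh2.flip (H : Sh2 D h i j k) : Sh3 D.flip h i j k :=
  At.cast H rfl rfl rfl (fun _ => rfl) (fun _ => rfl) (fun _ => rfl)
    rfl (by simp [Pent.flip]) rfl rfl (by simp [Pent.flip]) (by simp [Pent.flip])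

theorem Sh3.flip (H : Sh3 D h i j k) : Sh2 D.flip h i j k :=
  At.cast H rfl rfl rfl (fun _ => rfl) (fun _ => rfl) (fun _ => rfl)
    (by simp [Pent.flip]) rfl rfl rfl (by simp [Pent.flip]) (by simp [Pent.flip])

theorem Sh4.flip (H : Sh4 D h i j k) : Sh1 D.flip h i j k :=
  At.cast H rfl rfl rfl (fun _ => rfl) (fun _ => rfl) (fun _ => rfl)
    rfl (by simp [Pent.flip]) rfl rfl (by simp [Pent.flip]) (by simp [Pent.flip])

theorem Sh5.flip (H : Sh5 D h i j k) : Sh5 D.flip h j i k :=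
  At.cast (At.swap H) rfl rfl rfl (fun _ => rfl) (fun _ => rfl) (fun _ => rfl)
    rfl (by simp [Pent.flip]) (by simp [Pent.flip]) (by simp [Pent.flip])
    (by simp [Pent.flip]) (by simp [Pent.flip])

/-- the next pentagon, reached by mutating `z` at `T` -/
noncomputable def Pent.next (D : Pent F) : Pent F where
  u := D.y
  v := D.u
  S := D.T
  y := (D.u + ((1 + D.T ^ 2) / D.z) ^ 3) / D.T
  T := (1 + D.y * ((1 + D.T ^ 2) / D.z) ^ 3) / D.T
  z := (1 + D.T ^ 2) / D.z
  wu := D.wy
  wv := D.wu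
  wy := fun a => 5 * (D.wu a + D.wy a) - 3 * D.wz a
  wz := fun a => 2 * (D.wu a + D.wy a) - D.wz a
  e := D.e

theorem Pent.Ok.next (hD : D.Ok) (h1 : 1 + D.T ^ 2 ≠ 0)
    (h2 : D.u + ((1 + D.T ^ 2) / D.z) ^ 3 ≠ 0) (h3 : 1 + D.y * ((1 + D.T ^ 2) / D.z) ^ 3 ≠ 0)
    (hw : ∀ a, 3 * D.wz a ≤ 5 * (D.wu a + D.wy a)) : D.next.Ok where
  uv := by simp only [Pent.next]; rw [mul_comm, hD.uy]
  uy := by
    simp only [Pent.next]
    have := hD.nT
    field_simp
    linear_combination hD.uy
  Sy := by simp only [Pent.next]; rw [mul_div_cancel₀ _ hD.nT]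
  Tv := by
    simp only [Pent.next]
    have := hD.nT
    generalize ((1 + D.T ^ 2) / D.z) ^ 3 = Z
    field_simp
    linear_combination Z * hD.uy
  ST := by simp only [Pent.next]; rw [mul_div_cancel₀ _ hD.nT]
  nu := hD.ny
  nv := hD.nu
  nS := hD.nT
  ny := div_ne_zero h2 hD.nT
  nT := div_ne_zero h3 hD.nT
  nz := div_ne_zero h1 hD.nz
  e1 := hD.e1
  wu0 := hD.wy0
  wv0 := hD.wu0
  wy0 := by intro a; have := hw a; simp only [Pent.next]; omega
  w3 := by intro a; simp only [Pent.next]; ring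

theorem Sh3.mk (hD : D.Ok) (H : Sh3 D h i j k) : Sh1 D.next (h.mut k) i j k := by
  rcases hD.e1 with he | he <;> unfold Sh3 at H <;> unfold Sh1 <;> rw [he] at H <;>
  rw [show D.next.e = D.e from rfl, he] <;>
  · refine (At.mut1 H.rot (by norm_num) (by norm_num)).rot.rot.cast rfl rfl ?_ (fun _ => rfl) ?_ ?_
      (by norm_num) (by norm_num) (by norm_num) (by norm_num) (by norm_num) (by norm_num)
    · simp [Pent.next, add_comm]
    · intro a; simp [Pent.wS, Pent.wT, Pent.next]; ring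
    · intro a
      have := hD.wu0 a; have := hD.wy0 a
      simp [Pent.wS, Pent.wT, Pent.next]
      omega

theorem Sh4.mk (hD : D.Ok) (H : Sh4 D h i j k) : Sh2 D.next (h.mut k) i j k := by
  rcases hD.e1 with he | he <;> unfold Sh4 at H <;> unfold Sh2 <;> rw [he] at H <;>
  rw [show D.next.e = D.e from rfl, he] <;>
  · refine (At.mut1 H.rot (by norm_num) (by norm_num)).rot.rot.cast rfl rfl ?_ (fun _ => rfl) ?_ ?_
      (by norm_num) (by norm_num) (by norm_num) (by norm_num) (by norm_num) (by norm_num)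
    · simp [Pent.next, add_comm]
    · intro a; simp [Pent.wS, Pent.wT, Pent.next]; ring
    · intro a
      have := hD.wu0 a; have := hD.wy0 a
      simp [Pent.wS, Pent.wT, Pent.next]
      omega

theorem Sh1.mk (hD : D.Ok) (h1 : 1 + D.T ^ 2 ≠ 0) (H : Sh1 D.next h i j k) :
    Sh3 D (h.mut k) i j k := by
  rcases hD.e1 with he | he <;> unfold Sh1 at H <;> unfold Sh3 <;> rw [he] <;>
  rw [show D.next.e = D.e from rfl, he] at H <;>
  · refine (At.mut1 H.rot (by norm_num) (by norm_num)).rot.rot.cast rfl rfl ?_ (fun _ => rfl) ?_ ?_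
      (by norm_num) (by norm_num) (by norm_num) (by norm_num) (by norm_num) (by norm_num)
    · have := hD.nz
      simp only [Pent.next]
      simp [add_comm]
      rw [div_div_eq_mul_div, add_comm, div_eq_iff (by rw [add_comm]; exact h1)]
      ring
    · intro a; simp [Pent.wS, Pent.wT, Pent.next]; ring
    · intro a
      have := hD.wu0 a; have := hD.wy0 a
      simp [Pent.wS, Pent.wT, Pent.next]
      omega

theorem Sh2.mk (hD : D.Ok) (h1 : 1 + D.T ^ 2 ≠ 0) (H : Sh2 D.next h i j k) :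
    Sh4 D (h.mut k) i j k := by
  rcases hD.e1 with he | he <;> unfold Sh2 at H <;> unfold Sh4 <;> rw [he] <;>
  rw [show D.next.e = D.e from rfl, he] at H <;>
  · refine (At.mut1 H.rot (by norm_num) (by norm_num)).rot.rot.cast rfl rfl ?_ (fun _ => rfl) ?_ ?_
      (by norm_num) (by norm_num) (by norm_num) (by norm_num) (by norm_num) (by norm_num)
    · have := hD.nz
      simp only [Pent.next]
      simp [add_comm]
      rw [div_div_eq_mul_div, add_comm, div_eq_iff (by rw [add_comm]; exact h1)]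
      ring
    · intro a; simp [Pent.wS, Pent.wT, Pent.next]; ring
    · intro a
      have := hD.wu0 a; have := hD.wy0 a
      simp [Pent.wS, Pent.wT, Pent.next]
      omega

theorem Sh5.mk (hD : D.Ok) (H : Sh5 D h i j k) :
    At (h.mut k) i j k D.y D.v ((D.v ^ 2 + D.y ^ 2) / D.z) D.wy D.wv
      (fun a => max (2 * D.wy a) (2 * D.wv a) - D.wz a)
      (-5 * D.e) (5 * D.e) (2 * D.e) (-3 * D.e) (-2 * D.e) (3 * D.e) := by
  rcases hD.e1 with he | he <;> unfold Sh5 at H <;> rw [he] at H ⊢ <;>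
  · refine (At.mut1 H.rot (by norm_num) (by norm_num)).rot.rot.cast rfl rfl ?_ (fun _ => rfl)
      (fun _ => rfl) ?_
      (by norm_num) (by norm_num) (by norm_num) (by norm_num) (by norm_num) (by norm_num)
    · simp [add_comm]
    · intro a
      simp
      omega

end Pool.Agent.Y945.CB
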